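import Mathlib

set_option autoImplicit false

namespace Pool.Agent.TH646.AT

theorem num_V {N W Q A₁ nN Y2 B₁ sq Yr : ℝ} (hN : 0 < N) (hW : 0 < W) (hQ : 0 < Q)
    (hA : 0 < A₁) (h1 : N / Q ≤ nN) (h2 : A₁ / 9 ≤ Y2) (h3 : B₁ ≤ N / W)
    (h4 : 3 * N / Yr ≤ 6 * N / W) (h5 : sq ≤ N / W) (h6 : 288 * Q ≤ W * A₁) :
    N * A₁ / (36 * Q) ≤ nN / 2 * Y2 - B₁ - (3 * N / Yr + sq) := by
  have e1 : N / Q / 2 * (A₁ / 9) ≤ nN / 2 * Y2 := by
    apply mul_le_mul (by linarith) h2 (by positivity)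
    have : 0 < N / Q := by positivity
    linarith
  have e2 : N / Q / 2 * (A₁ / 9) = 2 * (N * A₁ / (36 * Q)) := by
    field_simp; ring
  have e3 : 8 * (N / W) ≤ N * A₁ / (36 * Q) := by
    rw [mul_div_assoc', div_le_div_iff₀ hW (by positivity)]
    have := mul_le_mul_of_nonneg_left h6 hN.le
    linarith
  have e4 : 6 * N / W = 6 * (N / W) := by ring
  linarith

theorem num_E {T W Q A₂ nT Y6 B₂ : ℝ} (hT : 0 < T) (hW : 0 < W) (hQ : 0 < Q)
    (hA : 0 < A₂) (h1 : T / (2 * Q) ≤ nT) (h2 : A₂ / 729 ≤ Y6) (h3 : B₂ ≤ T / W)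
    (h6 : 5832 * Q ≤ W * A₂) :
    T * A₂ / (5832 * Q) ≤ nT / 2 * Y6 - B₂ := by
  have e1 : T / (2 * Q) / 2 * (A₂ / 729) ≤ nT / 2 * Y6 := by
    apply mul_le_mul (by linarith) h2 (by positivity)
    have : 0 < T / (2 * Q) := by positivity
    linarith
  have e2 : T / (2 * Q) / 2 * (A₂ / 729) = 2 * (T * A₂ / (5832 * Q)) := by
    field_simp; ring
  have e3 : T / W ≤ T * A₂ / (5832 * Q) := by
    rw [div_le_div_iff₀ hW (by positivity)]
    have := mul_le_mul_of_nonneg_left h6 hT.le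
    linarith
  linarith

theorem num_bad {N T W L k w Yr P₁ z : ℝ} (hN : 0 < N) (hT : 0 < T) (hW : 1 ≤ W) (hL : 1 ≤ L)
    (hk : 1 ≤ k) (hw : w ≤ 2 * L) (hY : W / 2 ≤ Yr) (hTW : W ≤ T)
    (hP1 : z ≤ P₁) (hP2 : P₁ ≤ 2 * z) (hz : 0 < z) (hNz : N ≤ z ^ 2) (hzT : z ≤ 216 * (T / W)) :
    2 * N * (w * (T / Yr + 1)) + 2 * N * (3 * (T / Yr + P₁)) +
      3 * ((3 * k ^ 4 * N) ^ 2 / P₁ + Real.sqrt (2 * (3 * k ^ 4 * N) ^ 3)) ≤
      20000 * k ^ 8 * L * (N * T / W) := by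
  have hW0 : 0 < W := by linarith
  have hY0 : 0 < Yr := by linarith
  have hP0 : 0 < P₁ := by linarith
  have hk0 : 0 < k := by linarith
  set q : ℝ := T / W with hq
  have hq0 : 0 < q := by positivity
  have hq1 : 1 ≤ q := by rw [hq, le_div_iff₀ hW0]; linarith
  have a1 : T / Yr ≤ 2 * q := by
    rw [hq, div_le_iff₀ hY0]
    have h1 : 2 * (T / W) * Yr = (T / W) * (2 * Yr) := by ring
    rw [h1]
    have h2 : T = (T / W) * W := by field_simp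
    have h3 : (T / W) * W ≤ (T / W) * (2 * Yr) := mul_le_mul_of_nonneg_left (by linarith) (by positivity)
    linarith
  have a2 : w * (T / Yr + 1) ≤ 2 * L * (3 * q) :=
    mul_le_mul hw (by linarith) (by positivity) (by linarith)
  have a3 : 2 * N * (w * (T / Yr + 1)) ≤ 2 * N * (2 * L * (3 * q)) :=
    mul_le_mul_of_nonneg_left a2 (by positivity)
  have a4 : 2 * N * (3 * (T / Yr + P₁)) ≤ 2 * N * (3 * (2 * q + 432 * q)) :=
    mul_le_mul_of_nonneg_left (by linarith) (by positivity)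
  have a5 : (3 * k ^ 4 * N) ^ 2 / P₁ ≤ 9 * k ^ 8 * (N * (216 * q)) := by
    rw [div_le_iff₀ hP0]
    have h1 : N ≤ z * P₁ := by
      calc N ≤ z ^ 2 := hNz
        _ = z * z := sq z
        _ ≤ z * P₁ := mul_le_mul_of_nonneg_left hP1 hz.le
    have h2 : z * P₁ ≤ (216 * q) * P₁ := mul_le_mul_of_nonneg_right hzT hP0.le
    have h3 : (3 * k ^ 4 * N) ^ 2 = 9 * k ^ 8 * N * N := by ring
    rw [h3]
    calc 9 * k ^ 8 * N * N ≤ 9 * k ^ 8 * N * ((216 * q) * P₁) :=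
          mul_le_mul_of_nonneg_left (h1.trans h2) (by positivity)
      _ = 9 * k ^ 8 * (N * (216 * q)) * P₁ := by ring
  have a6 : Real.sqrt (2 * (3 * k ^ 4 * N) ^ 3) ≤ 8 * k ^ 6 * (N * (216 * q)) := by
    rw [Real.sqrt_le_left (by positivity)]
    have h1 : N ≤ (216 * q) ^ 2 := hNz.trans (pow_le_pow_left₀ hz.le hzT 2)
    have h2 : 2 * (3 * k ^ 4 * N) ^ 3 = 54 * (k ^ 12 * N ^ 2) * N := by ring
    have h3 : (8 * k ^ 6 * (N * (216 * q))) ^ 2 = 64 * (k ^ 12 * N ^ 2) * (216 * q) ^ 2 := by ring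
    rw [h2, h3]
    have h4 : 0 < k ^ 12 * N ^ 2 := by positivity
    calc 54 * (k ^ 12 * N ^ 2) * N ≤ 54 * (k ^ 12 * N ^ 2) * (216 * q) ^ 2 :=
          mul_le_mul_of_nonneg_left h1 (by positivity)
      _ ≤ 64 * (k ^ 12 * N ^ 2) * (216 * q) ^ 2 := by
          apply mul_le_mul_of_nonneg_right _ (by positivity)
          linarith
  have hk8 : 1 ≤ k ^ 8 := one_le_pow₀ hk
  have hk68 : k ^ 6 ≤ k ^ 8 := pow_le_pow_right₀ hk (by norm_num)
  have hNq : 0 < N * q := by positivity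
  have b1 : 2 * N * (2 * L * (3 * q)) = 12 * (L * (N * q)) := by ring
  have b2 : 2 * N * (3 * (2 * q + 432 * q)) = 2604 * (N * q) := by ring
  have b3 : 9 * k ^ 8 * (N * (216 * q)) = 1944 * (k ^ 8 * (N * q)) := by ring
  have b4 : 8 * k ^ 6 * (N * (216 * q)) = 1728 * (k ^ 6 * (N * q)) := by ring
  have c1 : L * (N * q) ≤ k ^ 8 * L * (N * q) := by
    rw [mul_assoc]
    exact le_mul_of_one_le_left (by positivity) hk8
  have c2 : N * q ≤ k ^ 8 * L * (N * q) :=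
    le_mul_of_one_le_left hNq.le (one_le_mul_of_one_le_of_one_le hk8 hL)
  have c3 : k ^ 8 * (N * q) ≤ k ^ 8 * L * (N * q) := by
    apply mul_le_mul_of_nonneg_right _ hNq.le
    exact le_mul_of_one_le_right (by positivity) hL
  have c4 : k ^ 6 * (N * q) ≤ k ^ 8 * (N * q) := mul_le_mul_of_nonneg_right hk68 hNq.le
  have d : N * T / W = N * q := by rw [hq]; ring
  rw [d]
  have e : 20000 * k ^ 8 * L * (N * q) = 20000 * (k ^ 8 * L * (N * q)) := by ring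
  rw [e]
  rw [b1] at a3
  rw [b2] at a4
  rw [b3] at a5
  rw [b4] at a6
  linarith

theorem num_final {N T W L Q A₁ A₂ V E c₁ c₂ r s k Xt : ℝ} (hN : 0 < N) (hT : 0 < T)
    (hW : 0 < W) (hL : 1 ≤ L) (hQ : 0 < Q) (hc₁ : 0 < c₁) (hc₂ : 0 < c₂) (hr : 1 ≤ r)
    (hk : 1 ≤ k)
    (hA1 : A₁ = c₁ / L ^ 2) (hA2 : A₂ = c₂ / L ^ 6)
    (hV : N * A₁ / (36 * Q) ≤ V) (hE : T * A₂ / (5832 * Q) ≤ E)
    (hmain : V * E ≤ 20000 * k ^ 8 * L * (N * T / W) + r * s)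
    (hWL : 10 ^ 12 * k ^ 8 * Q ^ 2 * L ^ 9 ≤ W * (c₁ * c₂))
    (hLr : 10 ^ 12 * k ^ 3 * Q ^ 2 * r ≤ L * (c₁ * c₂)) (hs : 0 ≤ s)
    (hX : Xt ≤ 432 * k ^ 3 * (N * T)) : Xt ≤ s * L ^ 9 := by
  have hL0 : 0 < L := by linarith
  set cc : ℝ := c₁ * c₂ with hcc
  have hcc0 : 0 < cc := by positivity
  set F : ℝ := N * T with hF
  have hF0 : 0 < F := by positivity
  have hA1' : 0 < A₁ := by rw [hA1]; positivity
  have hA2' : 0 < A₂ := by rw [hA2]; positivity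
  have h1 : (N * A₁ / (36 * Q)) * (T * A₂ / (5832 * Q)) ≤ V * E :=
    mul_le_mul hV hE (by positivity) (by
      have : 0 < N * A₁ / (36 * Q) := by positivity
      linarith)
  have h2 : (N * A₁ / (36 * Q)) * (T * A₂ / (5832 * Q)) = F * cc / (209952 * Q ^ 2 * L ^ 8) := by
    rw [hA1, hA2, hF, hcc]
    field_simp
    ring
  have h3 : F * cc / (209952 * Q ^ 2 * L ^ 8) ≤ 20000 * k ^ 8 * L * (F / W) + r * s := by
    rw [← h2]; exact h1.trans hmain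
  have hD : 0 < 209952 * Q ^ 2 * L ^ 8 := by positivity
  rw [div_le_iff₀ hD] at h3
  -- the bad part
  have h4 : 20000 * k ^ 8 * L * (F / W) * (209952 * Q ^ 2 * L ^ 8) ≤ F * cc / 2 := by
    have h5 : 20000 * k ^ 8 * L * (F / W) * (209952 * Q ^ 2 * L ^ 8) =
        (4199040000 * (k ^ 8 * Q ^ 2 * L ^ 9)) * F / W := by ring
    rw [h5, div_le_iff₀ hW]
    have h6 : 0 ≤ k ^ 8 * Q ^ 2 * L ^ 9 := by positivity
    have h7 : 4199040000 * (k ^ 8 * Q ^ 2 * L ^ 9) ≤ W * cc / 2 := by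
      have : 10 ^ 12 * k ^ 8 * Q ^ 2 * L ^ 9 = 10 ^ 12 * (k ^ 8 * Q ^ 2 * L ^ 9) := by ring
      rw [this] at hWL
      linarith
    have h8 := mul_le_mul_of_nonneg_right h7 hF0.le
    linarith
  have h9 : F * cc ≤ 2 * (r * s * (209952 * Q ^ 2 * L ^ 8)) := by
    have : (20000 * k ^ 8 * L * (F / W) + r * s) * (209952 * Q ^ 2 * L ^ 8) =
      20000 * k ^ 8 * L * (F / W) * (209952 * Q ^ 2 * L ^ 8) +
        r * s * (209952 * Q ^ 2 * L ^ 8) := by ring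
    rw [this] at h3
    linarith
  have h10 : Xt * cc ≤ 432 * k ^ 3 * (F * cc) := by
    have := mul_le_mul_of_nonneg_right hX hcc0.le
    linarith
  have h11 : Xt * cc ≤ (s * L ^ 9) * cc := by
    have k3 : 0 < k ^ 3 := by positivity
    calc Xt * cc ≤ 432 * k ^ 3 * (F * cc) := h10
      _ ≤ 432 * k ^ 3 * (2 * (r * s * (209952 * Q ^ 2 * L ^ 8))) :=
          mul_le_mul_of_nonneg_left h9 (by positivity)
      _ = 181398528 * (k ^ 3 * Q ^ 2 * r) * (s * L ^ 8) := by ring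
      _ ≤ 10 ^ 12 * (k ^ 3 * Q ^ 2 * r) * (s * L ^ 8) := by
          apply mul_le_mul_of_nonneg_right _ (by positivity)
          apply mul_le_mul_of_nonneg_right (by norm_num) (by positivity)
      _ = (10 ^ 12 * k ^ 3 * Q ^ 2 * r) * (s * L ^ 8) := by ring
      _ ≤ (L * cc) * (s * L ^ 8) := mul_le_mul_of_nonneg_right hLr (by positivity)
      _ = (s * L ^ 9) * cc := by ring
  exact le_of_mul_le_mul_right h11 hcc0

end Pool.Agent.TH646.AT
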