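import Pool.Agent.TH646.AT.Comb
import Pool.Agent.TH646.AT.Num

set_option autoImplicit false

open Finset Filter

namespace Pool.Agent.TH646.AT

open Pool.Agent.H661R3.OP (Rough)
open Pool.Agent.TH562.TW (ht infinite_points)

theorem omega_le {v : ℕ} {L : ℝ} (hv : 0 < v) (h : Real.log v ≤ L) :
    (v.primeFactors.card : ℝ) ≤ 2 * L := by
  have h1 : 2 ^ v.primeFactors.card ≤ v := by
    calc 2 ^ v.primeFactors.card = ∏ p ∈ v.primeFactors, 2 := by rw [prod_const]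
      _ ≤ ∏ p ∈ v.primeFactors, p :=
          prod_le_prod' fun p hp => (Nat.prime_of_mem_primeFactors hp).two_le
      _ ≤ v := Nat.le_of_dvd hv (Nat.prod_primeFactors_dvd v)
  have h2 : ((2 : ℝ) ^ v.primeFactors.card) ≤ v := by exact_mod_cast h1
  have h3 := Real.log_le_log (by positivity) h2
  rw [Real.log_pow] at h3
  have h4 := Real.log_two_gt_d9
  have h5 : (0 : ℝ) ≤ v.primeFactors.card := by positivity
  have h6 : (v.primeFactors.card : ℝ) * (1 / 2) ≤ v.primeFactors.card * Real.log 2 :=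
    mul_le_mul_of_nonneg_left (by linarith) h5
  linarith

theorem main {A B : ℤ} (hΔ : 4 * A ^ 3 + 27 * B ^ 2 ≠ 0) {M : ℕ} (hM : 0 < M)
    {θ : ℝ} (hθ : 7 / 8 < θ) (hθ1 : θ ≤ 1) (a : ℕ) (ha : a.Coprime M) :
    ∃ R₀ : ℕ, ∀ R : ℕ, R₀ ≤ R → ∃ X₀ : ℝ, ∀ X : ℝ, X₀ ≤ X →
    X ^ (θ - 1 / 2) / Real.log X ^ 9 ≤ (({d : ℕ | X ≤ d ∧ (d : ℝ) ≤ X + X ^ θ ∧ d ≡ a [MOD M] ∧
      Squarefree d ∧ Inf A B d ∧ d.primeFactors.card ≤ R ∧
      ∀ p : ℕ, p.Prime → p ∣ d → X ^ (1 / (R : ℝ)) < p}.ncard : ℕ) : ℝ) := by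
  classical
  obtain ⟨H₀, hH⟩ := infinite_points A B hΔ
  obtain ⟨c0V, cV, hcV, hcountV⟩ := countV
  obtain ⟨c0U, cU, hcU, hcountU⟩ := countU
  -- the modulus and the class
  obtain ⟨Q, hQd⟩ : ∃ Q : ℕ, Q = 30 * M := ⟨_, rfl⟩
  have hQ : 0 < Q := by omega
  have h30 : 30 ∣ Q := by rw [hQd]; exact dvd_mul_right _ _
  have h2Q : 2 ∣ Q := dvd_trans (by norm_num) h30
  have hMQ : M ∣ Q := by rw [hQd]; exact dvd_mul_left _ _
  obtain ⟨a', ha'Q, ha'p, ha'M⟩ := Nat.forall_exists_prime_gt_and_modEq Q hM.ne' ha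
  have ha'cop : Nat.Coprime a' Q := by
    rw [Nat.Prime.coprime_iff_not_dvd ha'p]
    intro hd
    have := Nat.le_of_dvd hQ hd
    omega
  obtain ⟨Λ, hΛd⟩ : ∃ Λ : ℤ, Λ = |A * Q ^ 4| + |B * Q ^ 6| + 1 := ⟨_, rfl⟩
  have hΛ : 1 ≤ Λ := by
    have := abs_nonneg (A * (Q : ℤ) ^ 4)
    have := abs_nonneg (B * (Q : ℤ) ^ 6)
    linarith
  have hAΛ : |A * (Q : ℤ) ^ 4| ≤ Λ := by
    have := abs_nonneg (B * (Q : ℤ) ^ 6)
    linarith
  have hBΛ : |B * (Q : ℤ) ^ 6| ≤ Λ := by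
    have := abs_nonneg (A * (Q : ℤ) ^ 4)
    linarith
  obtain ⟨k, hkd⟩ : ∃ k : ℕ, k = (12 * Λ).toNat + 2 := ⟨_, rfl⟩
  have hk : 2 ≤ k := by omega
  have hkΛ : 12 * Λ ≤ (k : ℤ) ^ 3 := by
    have h1 : 12 * Λ ≤ k := by omega
    have h2 : (1 : ℤ) ≤ k := by omega
    calc 12 * Λ ≤ (k : ℤ) := h1
      _ = (k : ℤ) ^ 1 := (pow_one _).symm
      _ ≤ (k : ℤ) ^ 3 := pow_le_pow_right₀ h2 (by norm_num)
  set m : ℕ := 12 * c0U + 2 * c0V + 8 with hm
  set δ : ℝ := (θ - 7 / 8) / m with hδ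
  have hm0 : (0 : ℝ) < m := by rw [hm]; positivity
  have hδ0 : 0 < δ := div_pos (by linarith) hm0
  have hδm : δ * m = θ - 7 / 8 := by rw [hδ]; field_simp
  refine ⟨⌈2 / δ⌉₊ + 1, ?_⟩
  intro R hRR
  have hR0 : 0 < R := by omega
  have hkr : (2 : ℝ) ≤ k := by exact_mod_cast hk
  have hk1 : (1 : ℝ) ≤ k := by linarith
  have hQr : (1 : ℝ) ≤ Q := by exact_mod_cast hQ
  set c₁ : ℝ := cV ^ 2 with hc1
  set c₂ : ℝ := cU ^ 6 with hc2
  have hc1' : 0 < c₁ := by positivity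
  have hc2' : 0 < c₂ := by positivity
  -- one big constant
  set D : ℝ := 10 ^ 12 * (k : ℝ) ^ 8 * (Q : ℝ) ^ 2 * 2 ^ R with hD
  have hD1 : 10 ^ 12 ≤ D := by
    have h1 : (1 : ℝ) ≤ (k : ℝ) ^ 8 := one_le_pow₀ hk1
    have h2 : (1 : ℝ) ≤ (Q : ℝ) ^ 2 := one_le_pow₀ hQr
    have h3 : (1 : ℝ) ≤ 2 ^ R := one_le_pow₀ (by norm_num)
    have h4 : (1 : ℝ) ≤ (k : ℝ) ^ 8 * ((Q : ℝ) ^ 2 * 2 ^ R) :=
      one_le_mul_of_one_le_of_one_le h1 (one_le_mul_of_one_le_of_one_le h2 h3)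
    have h5 : D = 10 ^ 12 * ((k : ℝ) ^ 8 * ((Q : ℝ) ^ 2 * 2 ^ R)) := by rw [hD]; ring
    rw [h5]
    exact le_mul_of_one_le_right (by norm_num) h4
  have hDpos : 0 < D := by linarith
  set K : ℝ := D * ((1 + 1 / c₁) * (1 + 1 / c₂)) + |(H₀ : ℝ)| with hK
  have hcc : 1 ≤ (1 + 1 / c₁) * (1 + 1 / c₂) := by
    have h1 : 0 < 1 / c₁ := by positivity
    have h2 : 0 < 1 / c₂ := by positivity
    exact one_le_mul_of_one_le_of_one_le (by linarith) (by linarith)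
  have hKD : D ≤ K := by
    have h1 := le_mul_of_one_le_right hDpos.le hcc
    have h2 := abs_nonneg (H₀ : ℝ)
    linarith
  have hKH : (H₀ : ℝ) ≤ K := by
    have h1 := le_abs_self (H₀ : ℝ)
    have h2 : 0 < D * ((1 + 1 / c₁) * (1 + 1 / c₂)) := by positivity
    linarith
  have hKpos : 0 < K := by linarith
  have hKc1 : D ≤ K * c₁ := by
    have h0 : D * ((1 + 1 / c₁) * (1 + 1 / c₂)) * c₁ = D * ((c₁ + 1) * (1 + 1 / c₂)) := by
      field_simp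
    have h1 : (1 : ℝ) ≤ (c₁ + 1) * (1 + 1 / c₂) := by
      have : 0 < 1 / c₂ := by positivity
      exact one_le_mul_of_one_le_of_one_le (by linarith) (by linarith)
    have h2 := le_mul_of_one_le_right hDpos.le h1
    have h3 : 0 ≤ |(H₀ : ℝ)| * c₁ := by positivity
    rw [hK, add_mul, h0]
    linarith
  have hKc2 : D ≤ K * c₂ := by
    have h0 : D * ((1 + 1 / c₁) * (1 + 1 / c₂)) * c₂ = D * ((1 + 1 / c₁) * (c₂ + 1)) := by
      field_simp
    have h1 : (1 : ℝ) ≤ (1 + 1 / c₁) * (c₂ + 1) := by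
      have : 0 < 1 / c₁ := by positivity
      exact one_le_mul_of_one_le_of_one_le (by linarith) (by linarith)
    have h2 := le_mul_of_one_le_right hDpos.le h1
    have h3 : 0 ≤ |(H₀ : ℝ)| * c₂ := by positivity
    rw [hK, add_mul, h0]
    linarith
  have hKcc : D ≤ K * (c₁ * c₂) := by
    have h0 : D * ((1 + 1 / c₁) * (1 + 1 / c₂)) * (c₁ * c₂) = D * ((c₁ + 1) * (c₂ + 1)) := by
      field_simp
    have h1 : (1 : ℝ) ≤ (c₁ + 1) * (c₂ + 1) :=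
      one_le_mul_of_one_le_of_one_le (by linarith) (by linarith)
    have h2 := le_mul_of_one_le_right hDpos.le h1
    have h3 : 0 ≤ |(H₀ : ℝ)| * (c₁ * c₂) := by positivity
    rw [hK, add_mul, h0]
    linarith
  -- eventually
  have ev1 : ∀ᶠ X : ℝ in atTop, K * Real.log X ^ 9 ≤ X ^ δ := by
    have h1 : (fun x : ℝ => Real.log x) =o[atTop] (fun x : ℝ => x ^ (δ / 10)) :=
      isLittleO_log_rpow_atTop (by positivity)
    have h2 : ∀ᶠ x : ℝ in atTop, K ≤ x ^ (δ / 10) :=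
      (tendsto_rpow_atTop (by positivity)).eventually_ge_atTop K
    filter_upwards [h1.bound (by norm_num : (0 : ℝ) < 1), h2, eventually_ge_atTop 1]
      with x hx hx2 hx1
    rw [one_mul, Real.norm_of_nonneg (Real.log_nonneg hx1),
      Real.norm_of_nonneg (by positivity)] at hx
    have hl0 := Real.log_nonneg hx1
    calc K * Real.log x ^ 9 ≤ x ^ (δ / 10) * (x ^ (δ / 10)) ^ 9 :=
          mul_le_mul hx2 (pow_le_pow_left₀ hl0 hx 9) (by positivity) (by positivity)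
      _ = x ^ δ := by
          rw [← Real.rpow_natCast, ← Real.rpow_mul (by linarith), ← Real.rpow_add (by linarith)]
          congr 1
          push_cast
          ring
  have ev2 : ∀ᶠ X : ℝ in atTop, K + Q + (4 * A ^ 3 + 27 * B ^ 2).natAbs ≤ Real.log X :=
    Real.tendsto_log_atTop.eventually_ge_atTop _
  obtain ⟨X₀, hX₀⟩ := (ev1.and (ev2.and (eventually_ge_atTop (1 : ℝ)))).exists_forall_of_atTop
  refine ⟨X₀, ?_⟩
  intro X hX
  obtain ⟨e1, e2, hX1⟩ := hX₀ X hX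
  set L : ℝ := Real.log X with hL
  set Z : ℝ := X ^ (1 / 4 : ℝ) with hZ
  set z : ℝ := X ^ (1 / 8 : ℝ) with hz
  set W : ℝ := X ^ δ with hW
  set N : ℕ := ⌊Z / (k : ℝ) ^ 3⌋₊ with hN
  have hX0 : 0 < X := by linarith
  have hnat0 : (0 : ℝ) ≤ (4 * A ^ 3 + 27 * B ^ 2).natAbs := by positivity
  have hKL : K ≤ L := by linarith
  have hL1 : 1 ≤ L := by linarith
  have hL0 : 0 < L := by linarith
  have hZ0 : 0 < Z := by positivity
  have hz0 : 0 < z := by positivity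
  have hW0 : 0 < W := by positivity
  have hZ4 : Z ^ 4 = X := by
    rw [hZ, ← Real.rpow_natCast, ← Real.rpow_mul hX0.le]; norm_num
  have hz2 : z ^ 2 = Z := by
    rw [hz, hZ, ← Real.rpow_natCast, ← Real.rpow_mul hX0.le]; norm_num
  have hWL : K * L ^ 9 ≤ W := e1
  have hLpow : ∀ i : ℕ, 1 ≤ L ^ i := fun i => one_le_pow₀ hL1
  have hWKL : ∀ i : ℕ, i ≤ 9 → K * L ^ i ≤ W := fun i hi =>
    (mul_le_mul_of_nonneg_left (pow_le_pow_right₀ hL1 hi) hKpos.le).trans hWL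
  have hWK : K ≤ W := by have := hWKL 0 (by norm_num); rwa [pow_zero, mul_one] at this
  have hW12 : 10 ^ 12 ≤ W := by linarith
  have hW1 : 1 ≤ W := by linarith
  have hWD : D ≤ W := by linarith
  have hDk : (k : ℝ) ^ 8 * 10 ^ 12 ≤ D := by
    have h2 : (1 : ℝ) ≤ (Q : ℝ) ^ 2 := one_le_pow₀ hQr
    have h3 : (1 : ℝ) ≤ 2 ^ R := one_le_pow₀ (by norm_num)
    have h4 : (1 : ℝ) ≤ (Q : ℝ) ^ 2 * 2 ^ R := one_le_mul_of_one_le_of_one_le h2 h3
    have h5 : D = ((k : ℝ) ^ 8 * 10 ^ 12) * ((Q : ℝ) ^ 2 * 2 ^ R) := by rw [hD]; ring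
    rw [h5]
    exact le_mul_of_one_le_right (by positivity) h4
  have hk38 : (k : ℝ) ^ 3 ≤ (k : ℝ) ^ 8 := pow_le_pow_right₀ hk1 (by norm_num)
  have hk3pos : (0 : ℝ) < (k : ℝ) ^ 3 := by positivity
  have hWk : 10 ^ 12 * (k : ℝ) ^ 3 ≤ W := by linarith
  -- powers of W
  have hWm : W ^ m = X ^ (θ - 7 / 8) := by
    rw [hW, ← Real.rpow_natCast, ← Real.rpow_mul hX0.le, hδm]
  have hWmz : W ^ m ≤ z := by
    rw [hWm, hz]
    exact Real.rpow_le_rpow_of_exponent_le hX1 (by linarith)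
  have hWi : ∀ i : ℕ, i ≤ m → W ^ i ≤ z := fun i hi =>
    (pow_le_pow_right₀ hW1 hi).trans hWmz
  have hWz : W ≤ z := by have := hWi 1 (by omega); rwa [pow_one] at this
  have hz1 : 1 ≤ z := hW1.trans hWz
  have hzZ : z ≤ Z := by
    rw [← hz2, sq]; exact le_mul_of_one_le_right hz0.le hz1
  have hZ1 : 1 ≤ Z := hz1.trans hzZ
  have hZX : Z ≤ X := by
    rw [← hZ4]
    calc Z = Z ^ 1 := (pow_one Z).symm
      _ ≤ Z ^ 4 := pow_le_pow_right₀ hZ1 (by norm_num)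
  -- N
  have hN1 : (N : ℝ) ≤ Z / (k : ℝ) ^ 3 := Nat.floor_le (by positivity)
  have hN2 : Z / (k : ℝ) ^ 3 < N + 1 := Nat.lt_floor_add_one _
  have hN1' : (k : ℝ) ^ 3 * N ≤ Z := by
    rw [le_div_iff₀ hk3pos] at hN1; linarith
  have hN2' : Z < (k : ℝ) ^ 3 * (N + 1) := by
    rw [div_lt_iff₀ hk3pos] at hN2; linarith
  have hW2Z : W ^ 2 ≤ Z := (hWi 2 (by omega)).trans hzZ
  have hNbig : 10 * (k : ℝ) ^ 3 ≤ Z := by
    have h1 : W * W ≤ Z := by rw [← sq]; exact hW2Z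
    have h2 : 10 ^ 12 * (k : ℝ) ^ 3 * 1 ≤ W * W := mul_le_mul hWk hW1 (by norm_num) hW0.le
    linarith
  have hN9 : (9 : ℝ) ≤ N := by
    have h1 : (k : ℝ) ^ 3 * 10 < (k : ℝ) ^ 3 * (N + 1) := by linarith
    have h2 := lt_of_mul_lt_mul_left h1 hk3pos.le
    linarith
  have hN0 : (0 : ℝ) < N := by linarith
  have hNpos : 0 < N := by exact_mod_cast hN0
  have hNlow : Z ≤ 2 * (k : ℝ) ^ 3 * N := by
    have h1 : (k : ℝ) ^ 3 * 1 ≤ (k : ℝ) ^ 3 * N := mul_le_mul_of_nonneg_left (by linarith) hk3pos.le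
    linarith
  have hNZ : (N : ℝ) ≤ Z := by
    have h1 : 1 * (N : ℝ) ≤ (k : ℝ) ^ 3 * N :=
      mul_le_mul_of_nonneg_right (one_le_pow₀ hk1) hN0.le
    linarith
  have hXlo : (k : ℝ) ^ 12 * (N : ℝ) ^ 4 ≤ X := by
    have := pow_le_pow_left₀ (by positivity) hN1' 4
    rw [hZ4] at this
    have h2 : ((k : ℝ) ^ 3 * N) ^ 4 = (k : ℝ) ^ 12 * (N : ℝ) ^ 4 := by ring
    rwa [h2] at this
  have hXhi : X ≤ 2 * (k : ℝ) ^ 12 * (N : ℝ) ^ 4 := by
    have h1 : Z ≤ (k : ℝ) ^ 3 * (10 / 9 * N) := by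
      refine hN2'.le.trans (mul_le_mul_of_nonneg_left (by linarith) hk3pos.le)
    have h2 := pow_le_pow_left₀ hZ0.le h1 4
    rw [hZ4] at h2
    have h3 : ((k : ℝ) ^ 3 * (10 / 9 * N)) ^ 4 = (10000 / 6561) * ((k : ℝ) ^ 12 * (N : ℝ) ^ 4) := by
      ring
    rw [h3] at h2
    have h4 : 0 < (k : ℝ) ^ 12 * (N : ℝ) ^ 4 := by positivity
    linarith
  -- H, T
  set H : ℝ := X ^ θ with hHd
  have hHX : H ≤ X := by
    calc X ^ θ ≤ X ^ (1 : ℝ) := Real.rpow_le_rpow_of_exponent_le hX1 hθ1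
      _ = X := Real.rpow_one X
  have hHW : H = W ^ m * z * Z ^ 3 := by
    rw [hWm, hHd, hz, hZ, ← Real.rpow_natCast (X ^ (1/4:ℝ)), ← Real.rpow_mul hX0.le,
      ← Real.rpow_add hX0, ← Real.rpow_add hX0]
    congr 1
    push_cast
    ring
  set κ₁ : ℝ := 108 * (k : ℝ) ^ 8 * (N : ℝ) ^ 3 with hκ
  have hκ0 : 0 < κ₁ := by positivity
  set q : ℝ := H / κ₁ with hq
  have hq0 : 0 ≤ q := by rw [hq, hHW]; positivity
  set T : ℕ := ⌊q⌋₊ with hT
  have hTq : (T : ℝ) ≤ q := Nat.floor_le hq0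
  have hqT : q < T + 1 := Nat.lt_floor_add_one _
  have hqW : W ^ m * z / 108 ≤ q := by
    rw [hq, le_div_iff₀ hκ0, hHW, hκ]
    have h1 : (k : ℝ) ^ 8 * (N : ℝ) ^ 3 ≤ Z ^ 3 := by
      have h2 := pow_le_pow_left₀ (by positivity) hN1' 3
      have h3 : ((k : ℝ) ^ 3 * N) ^ 3 = (k : ℝ) ^ 9 * (N : ℝ) ^ 3 := by ring
      rw [h3] at h2
      refine le_trans ?_ h2
      exact mul_le_mul_of_nonneg_right (pow_le_pow_right₀ hk1 (by norm_num)) (by positivity)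
    have h4 : 0 ≤ W ^ m * z := by positivity
    calc W ^ m * z / 108 * (108 * (k : ℝ) ^ 8 * (N : ℝ) ^ 3) =
          W ^ m * z * ((k : ℝ) ^ 8 * (N : ℝ) ^ 3) := by ring
      _ ≤ W ^ m * z * Z ^ 3 := mul_le_mul_of_nonneg_left h1 h4
  have hWm1 : W ≤ W ^ m := by
    calc W = W ^ 1 := (pow_one W).symm
      _ ≤ W ^ m := pow_le_pow_right₀ hW1 (by omega)
  have hWmz1 : W * 1 ≤ W ^ m * z := mul_le_mul hWm1 hz1 zero_le_one (by positivity)
  have hTlow : W ^ m * z ≤ 216 * T := by linarith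
  have hT0 : (0 : ℝ) < T := by linarith
  have hTH : (T : ℝ) * κ₁ ≤ H := by
    have := mul_le_mul_of_nonneg_right hTq hκ0.le
    rwa [hq, div_mul_cancel₀ _ hκ0.ne'] at this
  have hTN : T ≤ k ^ 4 * N := by
    have h1 : (T : ℝ) * κ₁ ≤ ((k : ℝ) ^ 4 * N) * κ₁ := by
      refine (hTH.trans hHX).trans (hXhi.trans ?_)
      rw [hκ]
      have h2 : (k : ℝ) ^ 4 * N * (108 * (k : ℝ) ^ 8 * (N : ℝ) ^ 3) =
          108 * ((k : ℝ) ^ 12 * (N : ℝ) ^ 4) := by ring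
      rw [h2]
      have h4 : 0 < (k : ℝ) ^ 12 * (N : ℝ) ^ 4 := by positivity
      linarith
    have h2 : (T : ℝ) ≤ (k : ℝ) ^ 4 * N := le_of_mul_le_mul_right h1 hκ0
    exact_mod_cast h2
  -- Y
  set Y : ℕ := ⌊W⌋₊ with hY
  have hY1 : (Y : ℝ) ≤ W := Nat.floor_le hW0.le
  have hY2 : W < Y + 1 := Nat.lt_floor_add_one _
  have hYW : W / 2 ≤ Y := by linarith
  have hY2' : 2 ≤ Y := by
    have : (2 : ℝ) ≤ Y := by linarith
    exact_mod_cast this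
  obtain ⟨J, hJ1, hJ2⟩ := Pool.Agent.H661R3.OP.SVA.exists_J (show 2 ≤ Y by omega)
  have hJW : ((2 : ℝ) ^ 2 ^ J) ≤ W ^ 2 := by
    have h1 : ((2 : ℝ) ^ 2 ^ J) ≤ (Y : ℝ) ^ 2 := by exact_mod_cast hJ2
    exact h1.trans (pow_le_pow_left₀ (by positivity) hY1 2)
  have hJL : (2 : ℝ) ^ J ≤ 3 * L := by
    have h3 := Real.log_le_log (by positivity) (hJW.trans (hW2Z.trans hZX))
    rw [Real.log_pow] at h3
    push_cast at h3
    have h4 := Real.log_two_gt_d9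
    have h5 : (0 : ℝ) < 2 ^ J := by positivity
    have h6 : (2 : ℝ) ^ J * (1 / 3) ≤ 2 ^ J * Real.log 2 :=
      mul_le_mul_of_nonneg_left (by linarith only [h4]) h5.le
    linarith only [h3, h6]
  have hLW : L ≤ W := by
    have := hWKL 1 (by norm_num)
    rw [pow_one] at this
    have h2 : 1 * L ≤ K * L := mul_le_mul_of_nonneg_right (by linarith) hL0.le
    linarith
  have hYbig : Q + (4 * A ^ 3 + 27 * B ^ 2).natAbs ≤ Y := by
    have h1 : ((Q + (4 * A ^ 3 + 27 * B ^ 2).natAbs : ℕ) : ℝ) + 1 ≤ Y + 1 := by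
      push_cast
      linarith
    have h2 : ((Q + (4 * A ^ 3 + 27 * B ^ 2).natAbs : ℕ) : ℝ) ≤ Y := by linarith
    exact_mod_cast h2
  have hdisc : ∀ p : ℕ, p.Prime → Y < p →
      ¬ (p : ℤ) ∣ 4 * (A * Q ^ 4) ^ 3 + 27 * (B * Q ^ 6) ^ 2 := by
    intro p hp hpY hd
    have hpZ : Prime (p : ℤ) := Nat.prime_iff_prime_int.1 hp
    have e : 4 * (A * Q ^ 4) ^ 3 + 27 * (B * Q ^ 6) ^ 2 =
        (Q : ℤ) ^ 12 * (4 * A ^ 3 + 27 * B ^ 2) := by ring
    rw [e] at hd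
    rcases hpZ.dvd_or_dvd hd with h | h
    · have h1 := hpZ.dvd_of_dvd_pow h
      have h2 := Nat.le_of_dvd hQ (Int.natCast_dvd_natCast.1 h1)
      omega
    · have h1 : p ∣ (4 * A ^ 3 + 27 * B ^ 2).natAbs := Int.natCast_dvd.1 h
      have h2 := Nat.le_of_dvd (Int.natAbs_pos.2 hΔ) h1
      omega
  -- P₁
  set P₁ : ℕ := ⌊z⌋₊ + 1 with hP1
  have hP1a : z ≤ P₁ := by
    rw [hP1]; push_cast; exact (Nat.lt_floor_add_one z).le
  have hP1b : (P₁ : ℝ) ≤ 2 * z := by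
    rw [hP1]; push_cast
    have := Nat.floor_le hz0.le
    linarith
  have hYP : Y ≤ P₁ := by
    have : (Y : ℝ) ≤ P₁ := hY1.trans (hWz.trans hP1a)
    exact_mod_cast this
  -- the two counts
  have hV := hcountV Q Y J N a' hQ h2Q (by omega) ha'cop hJ1
  set A₁ : ℝ := c₁ / L ^ 2 with hA1
  set A₂ : ℝ := c₂ / L ^ 6 with hA2
  have hA1' : 0 < A₁ := by positivity
  have hA2' : 0 < A₂ := by positivity
  have hWQ : (Q : ℝ) * 10 ^ 12 ≤ D := by
    have h1 : (Q : ℝ) * 1 ≤ Q * Q := mul_le_mul_of_nonneg_left hQr (by linarith)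
    have h2 : (1 : ℝ) ≤ (k : ℝ) ^ 8 := one_le_pow₀ hk1
    have h3 : (1 : ℝ) ≤ 2 ^ R := one_le_pow₀ (by norm_num)
    have h4 : (1 : ℝ) ≤ (k : ℝ) ^ 8 * 2 ^ R := one_le_mul_of_one_le_of_one_le h2 h3
    have h5 : D = (Q * Q * 10 ^ 12) * ((k : ℝ) ^ 8 * 2 ^ R) := by rw [hD]; ring
    rw [h5]
    have h6 := le_mul_of_one_le_right (by positivity : (0:ℝ) ≤ Q * Q * 10 ^ 12) h4
    linarith
  have hWA1 : 288 * (Q : ℝ) ≤ W * A₁ := by
    have h1 : K * L ^ 2 * A₁ = K * c₁ := by rw [hA1]; field_simp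
    have h2 := mul_le_mul_of_nonneg_right (hWKL 2 (by norm_num)) hA1'.le
    linarith
  have hWA2 : 5832 * (Q : ℝ) ≤ W * A₂ := by
    have h1 : K * L ^ 6 * A₂ = K * c₂ := by rw [hA2]; field_simp
    have h2 := mul_le_mul_of_nonneg_right (hWKL 6 (by norm_num)) hA2'.le
    linarith
  have hQN : (Q : ℝ) ≤ N := by
    have h1 : (Q : ℝ) * 10 ^ 12 ≤ W := hWQ.trans hWD
    have h2 : W * W ≤ 2 * (k : ℝ) ^ 3 * N := by rw [← sq]; exact hW2Z.trans hNlow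
    have h3 : 2 * (k : ℝ) ^ 3 * (Q : ℝ) ≤ W * W := by
      have h4 : (2 * (k : ℝ) ^ 3) * (Q : ℝ) ≤ W * W :=
        mul_le_mul (by linarith) (by linarith) (by positivity) hW0.le
      exact h4
    have h5 : (2 * (k : ℝ) ^ 3) * (Q : ℝ) ≤ (2 * (k : ℝ) ^ 3) * N := h3.trans h2
    exact le_of_mul_le_mul_left h5 (by positivity)
  have hnN : (N : ℝ) / Q ≤ ((2 * N / Q : ℕ) : ℝ) := by
    have hQ0 : (0 : ℝ) < Q := by linarith
    have h1 : 2 * N < Q * (2 * N / Q) + Q := by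
      have h2 := Nat.div_add_mod (2 * N) Q
      have h3 := Nat.mod_lt (2 * N) hQ
      omega
    have h2 : 2 * (N : ℝ) < Q * ((2 * N / Q : ℕ) : ℝ) + Q := by exact_mod_cast h1
    rw [div_le_iff₀ hQ0]
    linarith
  have hcJ1 : A₁ / 9 ≤ (cV / 2 ^ J) ^ 2 := by
    have h1 : cV / (3 * L) ≤ cV / 2 ^ J := div_le_div_of_nonneg_left hcV.le (by positivity) hJL
    have h2 := pow_le_pow_left₀ (by positivity) h1 2
    have h3 : (cV / (3 * L)) ^ 2 = A₁ / 9 := by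
      rw [hA1, hc1, div_pow, mul_pow, div_div]
      norm_num
      ring
    rw [← h3]; exact h2
  have hcJ2 : A₂ / 729 ≤ (cU / 2 ^ J) ^ 6 := by
    have h1 : cU / (3 * L) ≤ cU / 2 ^ J := div_le_div_of_nonneg_left hcU.le (by positivity) hJL
    have h2 := pow_le_pow_left₀ (by positivity) h1 6
    have h3 : (cU / (3 * L)) ^ 6 = A₂ / 729 := by
      rw [hA2, hc2, div_pow, mul_pow, div_div]
      norm_num
      ring
    rw [← h3]; exact h2
  have hB1 : ((2 : ℝ) ^ 2 ^ J) ^ c0V ≤ N / W := by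
    have h2 : ((2 : ℝ) ^ 2 ^ J) ^ c0V ≤ W ^ (2 * c0V) := by
      calc ((2 : ℝ) ^ 2 ^ J) ^ c0V ≤ (W ^ 2) ^ c0V := pow_le_pow_left₀ (by positivity) hJW _
        _ = W ^ (2 * c0V) := by rw [← pow_mul]
    refine h2.trans ?_
    rw [le_div_iff₀ hW0]
    have h3 : W ^ (2 * c0V) * W * W ≤ 2 * (k : ℝ) ^ 3 * N := by
      rw [← pow_succ, ← pow_succ]
      exact (hWi _ (by omega)).trans (hzZ.trans hNlow)
    have h4 : W ^ (2 * c0V) * W * (2 * (k : ℝ) ^ 3) ≤ W ^ (2 * c0V) * W * W :=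
      mul_le_mul_of_nonneg_left (by linarith) (by positivity)
    have h5 : (2 * (k : ℝ) ^ 3) * (W ^ (2 * c0V) * W) ≤ (2 * (k : ℝ) ^ 3) * N := by linarith
    exact le_of_mul_le_mul_left h5 (by positivity)
  have hB2 : ((2 : ℝ) ^ 2 ^ J) ^ (c0U * 3) ≤ T / W := by
    have h2 : ((2 : ℝ) ^ 2 ^ J) ^ (c0U * 3) ≤ W ^ (6 * c0U) := by
      calc ((2 : ℝ) ^ 2 ^ J) ^ (c0U * 3) ≤ (W ^ 2) ^ (c0U * 3) :=
            pow_le_pow_left₀ (by positivity) hJW _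
        _ = W ^ (6 * c0U) := by rw [← pow_mul]; congr 1; ring
    refine h2.trans ?_
    rw [le_div_iff₀ hW0]
    have h3 : W ^ (6 * c0U) * W * W ≤ 216 * T := by
      rw [← pow_succ, ← pow_succ]
      calc W ^ (6 * c0U + 1 + 1) ≤ W ^ m := pow_le_pow_right₀ hW1 (by omega)
        _ ≤ W ^ m * z := le_mul_of_one_le_right (by positivity) hz1
        _ ≤ 216 * T := hTlow
    have h4 : W ^ (6 * c0U) * W * 216 ≤ W ^ (6 * c0U) * W * W :=
      mul_le_mul_of_nonneg_left (by linarith) (by positivity)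
    linarith
  have h3Y : 3 * (N : ℝ) / Y ≤ 6 * N / W := by
    rw [div_le_div_iff₀ (by linarith) hW0]
    have h1 : (N : ℝ) * (W / 2) ≤ N * Y := mul_le_mul_of_nonneg_left hYW hN0.le
    linarith
  have hsq3 : Real.sqrt (3 * N) ≤ N / W := by
    rw [Real.sqrt_le_left (by positivity), div_pow, le_div_iff₀ (by positivity)]
    have h1 : 3 * W ^ 2 ≤ N := by
      have h2 : W ^ 3 ≤ 2 * (k : ℝ) ^ 3 * N := (hWi 3 (by omega)).trans (hzZ.trans hNlow)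
      have h3 : W ^ 2 * (6 * (k : ℝ) ^ 3) ≤ W ^ 2 * W :=
        mul_le_mul_of_nonneg_left (by linarith) (by positivity)
      have h4 : (2 * (k : ℝ) ^ 3) * (3 * W ^ 2) ≤ (2 * (k : ℝ) ^ 3) * N := by
        have h5 : W ^ 2 * W = W ^ 3 := by ring
        linarith
      exact le_of_mul_le_mul_left h4 (by positivity)
    have h2 := mul_le_mul_of_nonneg_left h1 hN0.le
    linarith
  have hVlow := (num_V (Yr := (Y : ℝ)) hN0 hW0 (by linarith : (0:ℝ) < Q) hA1' hnN hcJ1 hB1 h3Y hsq3 hWA1).trans hV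
  set Vc : ℝ := (((Ioc N (3 * N)).filter (fun v : ℕ => v ≡ a' [MOD Q] ∧ Rough Y v ∧
        Squarefree v)).card : ℝ) with hVc
  have hnT : (T : ℝ) / (2 * Q) ≤ ((T / Q : ℕ) : ℝ) := by
    have hQ0 : (0 : ℝ) < Q := by linarith
    have h1 : T < Q * (T / Q) + Q := by
      have h2 := Nat.div_add_mod T Q
      have h3 := Nat.mod_lt T hQ
      omega
    have h2 : (T : ℝ) < Q * ((T / Q : ℕ) : ℝ) + Q := by exact_mod_cast h1
    have h3 : 2 * (Q : ℝ) ≤ T := by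
      have h4 : (Q : ℝ) * 10 ^ 12 ≤ W := hWQ.trans hWD
      linarith
    rw [div_le_iff₀ (by linarith)]
    linarith
  set E : ℝ := ((T / Q : ℕ) : ℝ) / 2 * (cU / 2 ^ J) ^ 6 - ((2 : ℝ) ^ 2 ^ J) ^ (c0U * 3) with hE
  have hElow := num_E hT0 hW0 (by linarith : (0:ℝ) < Q) hA2' hnT hcJ2 hB2 hWA2
  -- the number of prime factors of the numbers found
  have hω : ∀ n ∈ S A B M a Y X H, n.primeFactors.card ≤ R := by
    intro n hn
    obtain ⟨-, hn2, -, hn4, -, hn6⟩ := hn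
    have hn0 : n ≠ 0 := hn4.ne_zero
    have h1 : ((∏ p ∈ n.primeFactors, p : ℕ) : ℝ) ≤ 2 * X := by
      have h2 : ∏ p ∈ n.primeFactors, p ≤ n :=
        Nat.le_of_dvd (Nat.pos_of_ne_zero hn0) (Nat.prod_primeFactors_dvd n)
      have h3 : ((∏ p ∈ n.primeFactors, p : ℕ) : ℝ) ≤ n := by exact_mod_cast h2
      linarith
    have h2 : W ^ n.primeFactors.card ≤ ((∏ p ∈ n.primeFactors, p : ℕ) : ℝ) := by
      push_cast
      rw [← prod_const]
      apply Finset.prod_le_prod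
      · intro _ _; exact hW0.le
      · intro p hp
        rw [Nat.mem_primeFactors] at hp
        have := hn6 p hp.1 hp.2.1
        have h3 : (Y : ℝ) + 1 ≤ p := by exact_mod_cast this
        linarith
    have hX2 : 2 ≤ X := by linarith
    have h3 : W ^ n.primeFactors.card ≤ X ^ (2 : ℝ) := by
      refine (h2.trans h1).trans ?_
      rw [Real.rpow_two, sq]
      exact mul_le_mul_of_nonneg_right hX2 hX0.le
    have h4 : δ * (n.primeFactors.card : ℝ) ≤ 2 := by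
      rw [hW, ← Real.rpow_natCast, ← Real.rpow_mul hX0.le] at h3
      exact (Real.rpow_le_rpow_left_iff (by linarith)).1 h3
    have h5 : (n.primeFactors.card : ℝ) ≤ 2 / δ := by
      rw [le_div_iff₀ hδ0]; linarith
    have h6 : n.primeFactors.card ≤ ⌈2 / δ⌉₊ := by
      exact_mod_cast h5.trans (Nat.le_ceil _)
    omega
  -- the bound for the number of prime factors of v
  have hw : ∀ v : ℕ, 0 < v → v ≤ 3 * N → v.primeFactors.card ≤ ⌊2 * L⌋₊ := by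
    intro v hv hvN
    apply Nat.le_floor
    apply omega_le hv
    rw [hL]
    apply Real.log_le_log (by exact_mod_cast hv)
    have h1 : (v : ℝ) ≤ 3 * N := by exact_mod_cast hvN
    have h2 : 8 * (N : ℝ) ≤ (k : ℝ) ^ 3 * N := by
      apply mul_le_mul_of_nonneg_right _ hN0.le
      have := pow_le_pow_left₀ (by norm_num) hkr 3
      linarith
    linarith
  have hNH : H₀ ≤ N := by
    have h1 : (H₀ : ℝ) ≤ N := by
      have h2 : 2 * (k : ℝ) ^ 3 * W ≤ W * W := mul_le_mul_of_nonneg_right (by linarith) hW0.le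
      have h3 : W * W ≤ 2 * (k : ℝ) ^ 3 * N := by rw [← sq]; exact hW2Z.trans hNlow
      have h4 : W ≤ N := le_of_mul_le_mul_left (h2.trans h3) (by positivity)
      linarith
    exact_mod_cast h1
  have hcomb := comb (A := A) (B := B) (Λ := Λ) (Q := Q) (M := M) (a := a) (a' := a') (Y := Y)
    (T := T) (N := N) (k := k) (P₁ := P₁) (w := ⌊2 * L⌋₊) (R := R) (H₀ := H₀) (X := X) (H := H)
    (E := E) hH hQ hMQ ha'M hΛ hAΛ hBΛ hNpos hk hkΛ hNH (by omega) hYP hdisc hXlo hXhi hTH hTN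
    hw hω (fun u₀ v hu => hcountU A B Q Y J T u₀ v hQ h30 hu hJ1)
  have hwL : ((⌊2 * L⌋₊ : ℕ) : ℝ) ≤ 2 * L := Nat.floor_le (by positivity)
  have hTW : W ≤ T := by
    have h1 : W * W ≤ W ^ m * z := by
      have h2 : W * W ≤ W ^ m := by
        rw [← sq]; exact pow_le_pow_right₀ hW1 (by omega)
      exact h2.trans (le_mul_of_one_le_right (by positivity) hz1)
    have h3 : W * 216 ≤ W * W := mul_le_mul_of_nonneg_left (by linarith) hW0.le
    linarith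
  have hzT : z ≤ 216 * ((T : ℝ) / W) := by
    rw [← mul_div_assoc, le_div_iff₀ hW0]
    have h1 : W * z ≤ W ^ m * z := mul_le_mul_of_nonneg_right hWm1 hz0.le
    linarith
  have hbad := num_bad (w := ((⌊2 * L⌋₊ : ℕ) : ℝ)) (Yr := (Y : ℝ)) (P₁ := (P₁ : ℝ)) (z := z)
    (k := (k : ℝ)) hN0 hT0 hW1 hL1 hk1 hwL hYW hTW hP1a hP1b hz0 (by rw [hz2]; exact hNZ) hzT
  -- inclusion
  set S' : Set ℕ := {d : ℕ | X ≤ d ∧ (d : ℝ) ≤ X + H ∧ d ≡ a [MOD M] ∧
      Squarefree d ∧ Inf A B d ∧ d.primeFactors.card ≤ R ∧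
      ∀ p : ℕ, p.Prime → p ∣ d → X ^ (1 / (R : ℝ)) < p} with hS'
  have hsub : S A B M a Y X H ⊆ S' := by
    intro n hn
    have hcard := hω n hn
    obtain ⟨n1, n2, n3, n4, n5, n6⟩ := hn
    refine ⟨n1, n2, n3, n4, n5, hcard, fun p hp hpn => ?_⟩
    have h := n6 p hp hpn
    have h1 : (Y : ℝ) + 1 ≤ p := by exact_mod_cast h
    have h2 : X ^ (1 / (R : ℝ)) ≤ W := by
      rw [hW]
      apply Real.rpow_le_rpow_of_exponent_le hX1
      rw [div_le_iff₀ (by exact_mod_cast hR0)]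
      have h3 : 2 / δ ≤ (R : ℝ) := by
        refine (Nat.le_ceil _).trans ?_
        exact_mod_cast (by omega : ⌈2 / δ⌉₊ ≤ R)
      rw [div_le_iff₀ hδ0] at h3
      linarith
    linarith
  have hfin : S'.Finite := by
    refine (Set.finite_Iic ⌈X + H⌉₊).subset ?_
    rintro n ⟨-, h, -⟩
    rw [Set.mem_Iic]
    exact_mod_cast h.trans (Nat.le_ceil _)
  have hSS : ((S A B M a Y X H).ncard : ℝ) ≤ (S'.ncard : ℝ) := by
    exact_mod_cast Set.ncard_le_ncard hsub hfin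
  have h2R : (1 : ℝ) ≤ 2 ^ R := one_le_pow₀ (by norm_num)
  have hmain : Vc * E ≤ 20000 * (k : ℝ) ^ 8 * L * (N * T / W) + 2 ^ R * (S'.ncard : ℝ) := by
    have h1 : (2 : ℝ) ^ R * ((S A B M a Y X H).ncard : ℝ) ≤ 2 ^ R * (S'.ncard : ℝ) :=
      mul_le_mul_of_nonneg_left hSS (by positivity)
    linarith
  rw [div_le_iff₀ (by positivity)]
  refine num_final (W := W) (Q := (Q : ℝ)) (A₁ := A₁) (A₂ := A₂) (V := Vc) (E := E) (c₁ := c₁)
    (c₂ := c₂) (r := 2 ^ R) (k := (k : ℝ)) hN0 hT0 hW0 hL1 (by linarith) hc1' hc2' h2R hk1 hA1 hA2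
    hVlow hElow hmain ?_ ?_ (by positivity) ?_
  · -- W large
    have h1 : K * (c₁ * c₂) * L ^ 9 ≤ W * (c₁ * c₂) := by
      have := mul_le_mul_of_nonneg_right hWL (by positivity : 0 ≤ c₁ * c₂)
      linarith
    have h2 : D * L ^ 9 ≤ K * (c₁ * c₂) * L ^ 9 :=
      mul_le_mul_of_nonneg_right hKcc (by positivity)
    have h3 : 10 ^ 12 * (k : ℝ) ^ 8 * (Q : ℝ) ^ 2 * L ^ 9 ≤ D * L ^ 9 := by
      apply mul_le_mul_of_nonneg_right _ (by positivity)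
      rw [hD]
      exact le_mul_of_one_le_right (by positivity) h2R
    linarith
  · have h1 : D ≤ L * (c₁ * c₂) :=
      hKcc.trans (mul_le_mul_of_nonneg_right hKL (by positivity))
    refine le_trans ?_ h1
    rw [hD]
    apply mul_le_mul_of_nonneg_right _ (by positivity)
    apply mul_le_mul_of_nonneg_right _ (by positivity)
    apply mul_le_mul_of_nonneg_left hk38 (by norm_num)
  · have h1 : X ^ (θ - 1 / 2) = W ^ m * z * Z := by
      rw [hWm, hz, hZ, ← Real.rpow_add hX0, ← Real.rpow_add hX0]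
      congr 1
      ring
    rw [h1]
    have h2 := mul_le_mul hTlow hNlow hZ0.le (by positivity)
    linarith

end Pool.Agent.TH646.AT
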