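import Pool.Agent.TH646.AT.Size
import Pool.Agent.TH562.TW.Color

set_option autoImplicit false

open Finset

namespace Pool.Agent.TH646.AT

open Pool.Agent.TH562.TW (GZ card_color card_spaced)

theorem GZ_eq (A B : ℤ) (u v : ℕ) : GZ A B 0 u v = G A B u v := by
  unfold GZ G; push_cast; ring

theorem mult_count {F : Finset ℕ} {u₀ T m : ℕ} (hm : 0 < m) (hF : ∀ u ∈ F, u₀ ≤ u ∧ u < u₀ + T)
    (h : ∀ u ∈ F, ∀ u' ∈ F, (m : ℤ) ∣ (u : ℤ) - u') : (F.card : ℝ) ≤ T / m + 1 := by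
  apply card_spaced F (fun u : ℕ => (u : ℝ)) (a := u₀) (by exact_mod_cast hm) (Nat.cast_nonneg T)
  · intro u hu
    obtain ⟨h1, h2⟩ := hF u hu
    exact ⟨by exact_mod_cast h1, by exact_mod_cast h2.le⟩
  · intro u hu u' hu' hne
    have h1 := h u hu u' hu'
    have h2 : (u : ℤ) - u' ≠ 0 := by omega
    have h3 : (m : ℤ) ≤ |(u : ℤ) - u'| := Int.le_of_dvd (abs_pos.2 h2) ((dvd_abs _ _).2 h1)
    have h4 : ((m : ℤ) : ℝ) ≤ ((|(u : ℤ) - u'| : ℤ) : ℝ) := by exact_mod_cast h3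
    push_cast at h4
    exact h4

/-- common factors -/
theorem bad1 {u₀ T Y v : ℕ} (hY : 1 ≤ Y) (hv0 : v ≠ 0)
    (hv : ∀ p : ℕ, p.Prime → p ∣ v → Y < p) :
    ((((Ico u₀ (u₀ + T)).filter (fun u => ¬ Nat.Coprime u v)).card : ℕ) : ℝ) ≤
      v.primeFactors.card * (T / Y + 1) := by
  classical
  have hsub : (Ico u₀ (u₀ + T)).filter (fun u => ¬ Nat.Coprime u v) ⊆
      v.primeFactors.biUnion (fun p => (Ico u₀ (u₀ + T)).filter (fun u => p ∣ u)) := by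
    intro u hu
    rw [mem_filter] at hu
    obtain ⟨p, hp, hpu, hpv⟩ := Nat.Prime.not_coprime_iff_dvd.1 hu.2
    rw [mem_biUnion]
    exact ⟨p, Nat.mem_primeFactors.2 ⟨hp, hpv, hv0⟩, mem_filter.2 ⟨hu.1, hpu⟩⟩
  have h1 := (card_le_card hsub).trans card_biUnion_le
  have h2 : (((((Ico u₀ (u₀ + T)).filter (fun u => ¬ Nat.Coprime u v)).card : ℕ) : ℝ)) ≤
      ∑ p ∈ v.primeFactors, ((((Ico u₀ (u₀ + T)).filter (fun u => p ∣ u)).card : ℕ) : ℝ) := by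
    exact_mod_cast h1
  refine h2.trans ?_
  rw [← nsmul_eq_mul, ← sum_const]
  apply sum_le_sum
  intro p hp
  rw [Nat.mem_primeFactors] at hp
  have h3 := mult_count (F := (Ico u₀ (u₀ + T)).filter (fun u => p ∣ u)) (u₀ := u₀) (T := T)
    (m := p) hp.1.pos
    (fun u hu => by rw [mem_filter, mem_Ico] at hu; exact hu.1)
    (fun u hu u' hu' => by
      rw [mem_filter] at hu hu'
      exact dvd_sub (by exact_mod_cast hu.2) (by exact_mod_cast hu'.2))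
  refine h3.trans ?_
  have h4 : (Y : ℝ) ≤ p := by exact_mod_cast (hv p hp.1 hp.2.1).le
  have h5 : (T : ℝ) / p ≤ T / Y :=
    div_le_div_of_nonneg_left (Nat.cast_nonneg T) (by exact_mod_cast hY) h4
  linarith

theorem not_dvd_v {A B : ℤ} {u v p : ℕ} (hp : p.Prime) (hc : Nat.Coprime u v)
    (h : (p : ℤ) ∣ G A B u v) : ¬ p ∣ v := by
  intro hv
  have hpz : Prime (p : ℤ) := Nat.prime_iff_prime_int.1 hp
  have hvz : (p : ℤ) ∣ (v : ℤ) := by exact_mod_cast hv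
  have h1 : (p : ℤ) ∣ (u : ℤ) ^ 3 := by
    have h2 : (p : ℤ) ∣ v * (A * u * v + B * v ^ 2) := hvz.mul_right _
    have h3 := dvd_sub h h2
    rwa [show G A B u v - v * (A * u * v + B * v ^ 2) = (u : ℤ) ^ 3 by unfold G; ring] at h3
  have h4 := hpz.dvd_of_dvd_pow h1
  have h5 : p ∣ u := by exact_mod_cast h4
  exact Nat.Prime.not_coprime_iff_dvd.2 ⟨p, hp, h5, hv⟩ hc

theorem sum_inv_sq {Y P₁ : ℕ} (hY : 1 ≤ Y) (c : ℝ) (hc : 0 ≤ c) :
    ∑ p ∈ (Ioc Y P₁).filter Nat.Prime, 3 * (c / ((p : ℝ) ^ 2) + 1) ≤ 3 * (c / Y + P₁) := by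
  have h0 : ∑ p ∈ (Ioc Y P₁).filter Nat.Prime, 3 * (c / ((p : ℝ) ^ 2) + 1) ≤
      ∑ p ∈ Ioc Y P₁, 3 * (c / ((p : ℝ) ^ 2) + 1) := by
    apply sum_le_sum_of_subset_of_nonneg (filter_subset _ _)
    intro p _ _
    positivity
  refine h0.trans ?_
  rw [← mul_sum, sum_add_distrib, sum_const, Nat.card_Ioc, nsmul_eq_mul, mul_one]
  have h1 : ∑ p ∈ Ioc Y P₁, c / ((p : ℝ) ^ 2) = c * ∑ p ∈ Ioc Y P₁, ((p : ℝ) ^ 2)⁻¹ := by
    rw [mul_sum]
    exact sum_congr rfl fun p _ => by rw [div_eq_mul_inv]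
  rw [h1]
  have h2 : ((P₁ - Y : ℕ) : ℝ) ≤ P₁ := by exact_mod_cast Nat.sub_le P₁ Y
  have h3 : c * ∑ p ∈ Ioc Y P₁, ((p : ℝ) ^ 2)⁻¹ ≤ c / Y := by
    rw [div_eq_mul_inv]
    apply mul_le_mul_of_nonneg_left _ hc
    rcases le_total Y P₁ with hYR | hYR
    · have h8 := sum_Ioc_inv_sq_le_sub (α := ℝ) (k := Y) (n := P₁) (by omega) hYR
      have : (0 : ℝ) ≤ (P₁ : ℝ)⁻¹ := by positivity
      linarith
    · rw [Ioc_eq_empty (by omega), sum_empty]
      positivity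
  linarith

open Classical in
/-- squares of medium primes, for a fixed `v` -/
theorem bad2 {A B : ℤ} {u₀ T Y P₁ v : ℕ} (hY : 1 ≤ Y)
    (hdisc : ∀ p : ℕ, p.Prime → Y < p → ¬ (p : ℤ) ∣ 4 * A ^ 3 + 27 * B ^ 2) :
    ((((Ico u₀ (u₀ + T)).filter (fun u => Nat.Coprime u v ∧ ∃ p : ℕ, p.Prime ∧ Y < p ∧ p ≤ P₁ ∧
      ((p ^ 2 : ℕ) : ℤ) ∣ G A B u v)).card : ℕ) : ℝ) ≤ 3 * (T / Y + P₁) := by
  classical
  have hsub : (Ico u₀ (u₀ + T)).filter (fun u => Nat.Coprime u v ∧ ∃ p : ℕ, p.Prime ∧ Y < p ∧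
      p ≤ P₁ ∧ ((p ^ 2 : ℕ) : ℤ) ∣ G A B u v) ⊆
      ((Ioc Y P₁).filter Nat.Prime).biUnion (fun p => (Ico u₀ (u₀ + T)).filter
        (fun u => Nat.Coprime u v ∧ ((p ^ 2 : ℕ) : ℤ) ∣ G A B u v)) := by
    intro u hu
    rw [mem_filter] at hu
    obtain ⟨hu1, hu2, p, hp, hYp, hpP, hdvd⟩ := hu
    rw [mem_biUnion]
    exact ⟨p, mem_filter.2 ⟨mem_Ioc.2 ⟨hYp, hpP⟩, hp⟩, mem_filter.2 ⟨hu1, hu2, hdvd⟩⟩
  have h1 := (card_le_card hsub).trans card_biUnion_le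
  refine (Nat.cast_le (α := ℝ).2 h1).trans ?_
  rw [Nat.cast_sum]
  refine le_trans (sum_le_sum ?_) (sum_inv_sq hY (T : ℝ) (Nat.cast_nonneg T))
  intro p hp
  rw [mem_filter, mem_Ioc] at hp
  obtain ⟨⟨hYp, -⟩, hp⟩ := hp
  have hp1 : (p : ℤ) ∣ ((p ^ 2 : ℕ) : ℤ) := by
    push_cast
    exact dvd_pow_self _ two_ne_zero
  apply card_color hp (hdisc p hp hYp) (m := 0) _ (fun u => u) (fun _ => v)
  · intro u hu
    rw [mem_filter] at hu
    rw [GZ_eq]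
    exact ⟨hu.2.2, not_dvd_v hp hu.2.1 (hp1.trans hu.2.2)⟩
  · intro T' hT' hd
    have h3 := mult_count (F := T') (u₀ := u₀) (T := T) (m := p ^ 2) (pow_pos hp.pos 2)
      (fun u hu => by
        have := hT' hu
        rw [mem_filter, mem_Ico] at this
        exact this.1)
      (fun u hu u' hu' => by
        have h4 := hd u hu u' hu'
        have h5 := hT' hu
        rw [mem_filter] at h5
        have hpv := not_dvd_v hp h5.2.1 (hp1.trans h5.2.2)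
        have hcop : IsCoprime (((p ^ 2 : ℕ) : ℤ)) (v : ℤ) := by
          push_cast
          apply IsCoprime.pow_left
          exact (Prime.coprime_iff_not_dvd (Nat.prime_iff_prime_int.1 hp)).2
            (by intro h; exact hpv (by exact_mod_cast h))
        rw [show (u : ℤ) * v - u' * v = (u - u') * v by ring] at h4
        exact hcop.dvd_of_dvd_mul_right h4)
    push_cast at h3 ⊢
    exact h3

/-- squares of large primes, all pairs together -/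
theorem bad3 {A B : ℤ} {U P₁ P₂ : ℕ} (hP : 1 ≤ P₁) (S : Finset (ℕ × ℕ))
    (hS : ∀ x ∈ S, 0 < x.2 ∧ x.2 ≤ x.1 ∧ x.1 ≤ U ∧ Nat.Coprime x.1 x.2 ∧ ∃ p : ℕ, p.Prime ∧
      P₁ < p ∧ p ≤ P₂ ∧ ((p ^ 2 : ℕ) : ℤ) ∣ G A B x.1 x.2)
    (hdisc : ∀ p : ℕ, p.Prime → P₁ < p → ¬ (p : ℤ) ∣ 4 * A ^ 3 + 27 * B ^ 2) :
    (S.card : ℝ) ≤ 3 * ((U : ℝ) ^ 2 / P₁ + P₂) := by
  classical
  have hsub : S ⊆ ((Ioc P₁ P₂).filter Nat.Prime).biUnion (fun p => S.filter
        (fun x => ((p ^ 2 : ℕ) : ℤ) ∣ G A B x.1 x.2)) := by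
    intro x hx
    obtain ⟨-, -, -, -, p, hp, hYp, hpP, hdvd⟩ := hS x hx
    rw [mem_biUnion]
    exact ⟨p, mem_filter.2 ⟨mem_Ioc.2 ⟨hYp, hpP⟩, hp⟩, mem_filter.2 ⟨hx, hdvd⟩⟩
  have h1 := (card_le_card hsub).trans card_biUnion_le
  refine (Nat.cast_le (α := ℝ).2 h1).trans ?_
  rw [Nat.cast_sum]
  refine le_trans (sum_le_sum ?_) (sum_inv_sq hP ((U : ℝ) ^ 2) (by positivity))
  intro p hp
  rw [mem_filter, mem_Ioc] at hp
  obtain ⟨⟨hYp, -⟩, hp⟩ := hp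
  have hp1 : (p : ℤ) ∣ ((p ^ 2 : ℕ) : ℤ) := by
    push_cast
    exact dvd_pow_self _ two_ne_zero
  apply card_color hp (hdisc p hp hYp) (m := 0) _ (fun x => x.1) (fun x => x.2)
  · intro x hx
    rw [mem_filter] at hx
    rw [GZ_eq]
    exact ⟨hx.2, not_dvd_v hp (hS x hx.1).2.2.2.1 (hp1.trans hx.2)⟩
  · intro T' hT' hd
    rcases T'.eq_empty_or_nonempty with h0 | ⟨y0, hy0⟩
    · rw [h0]; simp; positivity
    have hT'' : ∀ x ∈ T', 0 < x.2 ∧ x.2 ≤ x.1 ∧ x.1 ≤ U ∧ Nat.Coprime x.1 x.2 := by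
      intro x hx
      have := hT' hx
      rw [mem_filter] at this
      obtain ⟨a1, a2, a3, a4, -⟩ := hS x this.1
      exact ⟨a1, a2, a3, a4⟩
    have hU : (0 : ℝ) < U := by
      have := hT'' y0 hy0
      exact_mod_cast (by omega : 0 < U)
    have hp2 : (0 : ℝ) < (p : ℝ) ^ 2 := by
      have : (0 : ℝ) < p := by exact_mod_cast hp.pos
      positivity
    have h3 := card_spaced T' (fun x : ℕ × ℕ => (x.2 : ℝ) / x.1) (a := 0) (L := 1)
      (ε := (p : ℝ) ^ 2 / (U : ℝ) ^ 2) (by positivity) zero_le_one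
      (fun x hx => by
        obtain ⟨a1, a2, a3, a4⟩ := hT'' x hx
        have hx1 : (0 : ℝ) < x.1 := by exact_mod_cast (by omega : 0 < x.1)
        refine ⟨by positivity, ?_⟩
        rw [zero_add, div_le_one hx1]
        exact_mod_cast a2)
      (fun x hx y hy hne => by
        obtain ⟨a1, a2, a3, a4⟩ := hT'' x hx
        obtain ⟨b1, b2, b3, b4⟩ := hT'' y hy
        have hx1 : (0 : ℝ) < x.1 := by exact_mod_cast (by omega : 0 < x.1)
        have hy1 : (0 : ℝ) < y.1 := by exact_mod_cast (by omega : 0 < y.1)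
        have h4 := hd x hx y hy
        have h5 : (x.1 : ℤ) * y.2 - y.1 * x.2 ≠ 0 := by
          intro h0
          have h6 : x.1 * y.2 = y.1 * x.2 := by
            have : (x.1 : ℤ) * y.2 = y.1 * x.2 := by linarith
            exact_mod_cast this
          have h7 : x.2 ∣ y.2 := by
            have : x.2 ∣ x.1 * y.2 := by rw [h6]; exact dvd_mul_left _ _
            exact (a4.symm).dvd_of_dvd_mul_left this
          have h8 : y.2 ∣ x.2 := by
            have : y.2 ∣ y.1 * x.2 := by rw [← h6]; exact dvd_mul_left _ _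
            exact (b4.symm).dvd_of_dvd_mul_left this
          have h9 : x.2 = y.2 := Nat.dvd_antisymm h7 h8
          have h10 : x.1 = y.1 := by
            rw [h9] at h6
            exact Nat.eq_of_mul_eq_mul_right b1 h6
          exact hne (Prod.ext h10 h9)
        have h6 : ((p ^ 2 : ℕ) : ℤ) ≤ |(x.1 : ℤ) * y.2 - y.1 * x.2| :=
          Int.le_of_dvd (abs_pos.2 h5) ((dvd_abs _ _).2 h4)
        have h7 : (((p ^ 2 : ℕ) : ℤ) : ℝ) ≤ ((|(x.1 : ℤ) * y.2 - y.1 * x.2| : ℤ) : ℝ) := by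
          exact_mod_cast h6
        push_cast at h7
        have h8 : (x.2 : ℝ) / x.1 - (y.2 : ℝ) / y.1 =
            -(((x.1 : ℝ) * y.2 - y.1 * x.2) / (x.1 * y.1)) := by
          field_simp
          ring
        rw [h8, abs_neg, abs_div, abs_of_pos (by positivity : (0 : ℝ) < x.1 * y.1),
          div_le_div_iff₀ (by positivity) (by positivity)]
        have h9 : (x.1 : ℝ) * y.1 ≤ (U : ℝ) ^ 2 := by
          rw [sq]
          exact mul_le_mul (by exact_mod_cast a3) (by exact_mod_cast b3) hy1.le hU.le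
        exact mul_le_mul h7 h9 (by positivity) (abs_nonneg _))
    refine h3.trans (le_of_eq ?_)
    rw [one_div_div]

end Pool.Agent.TH646.AT
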