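import Pool.Agent.TH646.AT.Bad
import Pool.Agent.TH562.TW.Dup

set_option autoImplicit false

open Finset

namespace Pool.Agent.TH646.AT

open Pool.Agent.H661R3.OP (Rough)
open Pool.Agent.TH562.TW (ht infinite_points)

/-- the twist by `d` has infinitely many rational points -/
def Inf (A B : ℤ) (d : ℕ) : Prop :=
  {p : ℚ × ℚ | p.2 ^ 2 = p.1 ^ 3 + A * (d : ℚ) ^ 2 * p.1 + B * (d : ℚ) ^ 3}.Infinite

/-- the numbers found -/
def S (A B : ℤ) (M a Y : ℕ) (X H : ℝ) : Set ℕ :=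
  {d : ℕ | X ≤ d ∧ (d : ℝ) ≤ X + H ∧ d ≡ a [MOD M] ∧ Squarefree d ∧ Inf A B d ∧
    ∀ p : ℕ, p.Prime → p ∣ d → Y < p}

theorem S_finite (A B : ℤ) (M a Y : ℕ) (X H : ℝ) : (S A B M a Y X H).Finite := by
  refine (Set.finite_Iic ⌈X + H⌉₊).subset ?_
  rintro n ⟨-, h, -⟩
  rw [Set.mem_Iic]
  exact_mod_cast h.trans (Nat.le_ceil _)

theorem card_div {n R : ℕ} (hn : Squarefree n) (h : n.primeFactors.card ≤ R) :
    n.divisors.card ≤ 2 ^ R := by
  rw [Nat.card_divisors hn.ne_zero]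
  calc ∏ x ∈ n.primeFactors, (n.factorization x + 1) ≤ ∏ x ∈ n.primeFactors, 2 := by
        apply prod_le_prod' 
        intro p hp
        have := hn.natFactorization_le_one p
        omega
    _ = 2 ^ n.primeFactors.card := by rw [prod_const]
    _ ≤ 2 ^ R := Nat.pow_le_pow_right (by norm_num) h

/-- a good pair -/
structure Good (A B : ℤ) (Q a Y : ℕ) (u v : ℕ) : Prop where
  upos : 0 < u
  vpos : 0 < v
  cop : Nat.Coprime u v
  u1 : u ≡ 1 [MOD Q]
  va : v ≡ a [MOD Q]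
  vr : Rough Y v
  vsq : Squarefree v
  gr : ∀ p : ℕ, p.Prime → p ≤ Y → ¬ (p : ℤ) ∣ G (A * Q ^ 4) (B * Q ^ 6) u v
  gsq : ∀ p : ℕ, p.Prime → ¬ ((p ^ 2 : ℕ) : ℤ) ∣ G (A * Q ^ 4) (B * Q ^ 6) u v
  gpos : 0 < G (A * Q ^ 4) (B * Q ^ 6) u v

theorem Good.arith {A B : ℤ} {Q a Y u v : ℕ} (h : Good A B Q a Y u v) (hQ : 0 < Q) {H₀ : ℤ}
    (hH : ∀ (d x y : ℚ), d ≠ 0 → d * y ^ 2 = x ^ 3 + A * x + B → H₀ < ht x →
      {p : ℚ × ℚ | p.2 ^ 2 = p.1 ^ 3 + A * d ^ 2 * p.1 + B * d ^ 3}.Infinite)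
    (hu : H₀ < u) {d : ℕ} (hd : (d : ℤ) = v * G (A * Q ^ 4) (B * Q ^ 6) u v) :
    d ≡ a [MOD Q] ∧ Squarefree d ∧ Inf A B d ∧ ∀ p : ℕ, p.Prime → p ∣ d → Y < p := by
  have hvz : (0 : ℤ) < v := by exact_mod_cast h.vpos
  have hdpos : 0 < d := by
    have : (0 : ℤ) < d := by rw [hd]; exact mul_pos hvz h.gpos
    exact_mod_cast this
  refine ⟨?_, ?_, ?_, ?_⟩
  · -- the class
    have h1 : (Q : ℤ) ∣ (u : ℤ) - 1 := by
      have := (Int.natCast_modEq_iff.2 h.u1).symm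
      have h2 := Int.modEq_iff_dvd.1 this
      exact_mod_cast h2
    have h2 : (Q : ℤ) ∣ G (A * Q ^ 4) (B * Q ^ 6) u v - 1 := by
      have : G (A * Q ^ 4) (B * Q ^ 6) u v - 1 =
          ((u : ℤ) - 1) * ((u : ℤ) ^ 2 + u + 1) +
          Q * (A * Q ^ 3 * u * v ^ 2 + B * Q ^ 5 * v ^ 3) := by
        unfold G; ring
      rw [this]
      exact dvd_add (h1.mul_right _) (dvd_mul_right _ _)
    have h3 : (Q : ℤ) ∣ (d : ℤ) - v := by
      have : (d : ℤ) - v = v * (G (A * Q ^ 4) (B * Q ^ 6) u v - 1) := by rw [hd]; ring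
      rw [this]; exact h2.mul_left _
    have h4 : v ≡ d [MOD Q] := by
      rw [← Int.natCast_modEq_iff]
      exact Int.modEq_iff_dvd.2 h3
    exact h4.symm.trans h.va
  · rw [Nat.squarefree_iff_prime_squarefree]
    intro p hp hpd
    have hpz : Prime (p : ℤ) := Nat.prime_iff_prime_int.1 hp
    have h1 : (p : ℤ) ^ 2 ∣ v * G (A * Q ^ 4) (B * Q ^ 6) u v := by
      rw [← hd, sq]; exact_mod_cast hpd
    by_cases hpv : (p : ℤ) ∣ v
    · have hpG : ¬ (p : ℤ) ∣ G (A * Q ^ 4) (B * Q ^ 6) u v := by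
        intro hG
        exact not_dvd_v hp h.cop hG (by exact_mod_cast hpv)
      have h2 := hpz.pow_dvd_of_dvd_mul_right 2 hpG h1
      have h3 : p ^ 2 ∣ v := by exact_mod_cast h2
      rw [sq] at h3
      exact (Nat.squarefree_iff_prime_squarefree.1 h.vsq) p hp h3
    · have h2 := hpz.pow_dvd_of_dvd_mul_left 2 hpv h1
      exact h.gsq p hp (by push_cast; exact h2)
  · have hvQ : (0 : ℚ) < v := by exact_mod_cast h.vpos
    have hQQ : (0 : ℚ) < Q := by exact_mod_cast hQ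
    have hdq : ((d : ℕ) : ℚ) = v * (u ^ 3 + A * Q ^ 4 * u * v ^ 2 + B * Q ^ 6 * v ^ 3) := by
      have : ((d : ℤ) : ℚ) = ((v * G (A * Q ^ 4) (B * Q ^ 6) u v : ℤ) : ℚ) := by rw [hd]
      rw [Int.cast_natCast] at this
      rw [this]; unfold G; push_cast; ring
    have hcop : Nat.Coprime u (v * Q ^ 2) := by
      apply Nat.Coprime.mul_right h.cop
      apply Nat.Coprime.pow_right
      have h1 := h.u1.gcd_eq
      rw [Nat.gcd_one_left] at h1
      exact h1
    set x : ℚ := ((u : ℤ) : ℚ) / ((((v * Q ^ 2 : ℕ) : ℤ)) : ℚ) with hx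
    have hnum : x.num = u := by
      rw [hx]
      apply Rat.num_div_eq_of_coprime
      · have : 0 < v * Q ^ 2 := Nat.mul_pos h.vpos (pow_pos hQ 2)
        exact_mod_cast this
      · rw [Int.natAbs_natCast, Int.natAbs_natCast]; exact hcop
    have hht : H₀ < ht x := by
      unfold ht
      refine lt_of_lt_of_le ?_ (le_max_left _ _)
      rw [hnum, abs_of_nonneg (by positivity)]
      exact hu
    have hxe : x = u / (v * Q ^ 2) := by rw [hx]; push_cast; ring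
    exact hH d x (1 / (v ^ 2 * Q ^ 3)) (by exact_mod_cast hdpos.ne') (by
      rw [hxe, hdq]
      field_simp) hht
  · intro p hp hpd
    have hpz : Prime (p : ℤ) := Nat.prime_iff_prime_int.1 hp
    by_contra hcon
    push Not at hcon
    have h1 : (p : ℤ) ∣ v * G (A * Q ^ 4) (B * Q ^ 6) u v := by
      rw [← hd]; exact_mod_cast hpd
    rcases hpz.dvd_or_dvd h1 with h2 | h2
    · exact h.vr p hp hcon h2
    · exact h.gr p hp hcon h2

open Classical in
theorem comb {A B Λ : ℤ} {Q M a a' Y T N k P₁ w R : ℕ} {H₀ : ℤ} {X H : ℝ} {E : ℝ}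
    (hH : ∀ (d x y : ℚ), d ≠ 0 → d * y ^ 2 = x ^ 3 + A * x + B → H₀ < ht x →
      {p : ℚ × ℚ | p.2 ^ 2 = p.1 ^ 3 + A * d ^ 2 * p.1 + B * d ^ 3}.Infinite)
    (hQ : 0 < Q) (hMQ : M ∣ Q) (haa : a' ≡ a [MOD M])
    (hΛ : 1 ≤ Λ) (hA : |A * Q ^ 4| ≤ Λ) (hB : |B * Q ^ 6| ≤ Λ) (hN : 0 < N)
    (hk : 2 ≤ k) (hkΛ : 12 * Λ ≤ (k : ℤ) ^ 3) (hNH : H₀ ≤ N) (hY : 1 ≤ Y) (hYP : Y ≤ P₁)
    (hdisc : ∀ p : ℕ, p.Prime → Y < p →
      ¬ (p : ℤ) ∣ 4 * (A * Q ^ 4) ^ 3 + 27 * (B * Q ^ 6) ^ 2)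
    (hX1 : (k : ℝ) ^ 12 * (N : ℝ) ^ 4 ≤ X) (hX2 : X ≤ 2 * (k : ℝ) ^ 12 * (N : ℝ) ^ 4)
    (hT : (T : ℝ) * (108 * (k : ℝ) ^ 8 * (N : ℝ) ^ 3) ≤ H) (hTN : T ≤ k ^ 4 * N)
    (hw : ∀ v : ℕ, 0 < v → v ≤ 3 * N → v.primeFactors.card ≤ w)
    (hR : ∀ n ∈ S A B M a Y X H, n.primeFactors.card ≤ R)
    (hE : ∀ (u₀ : ℕ) (v : ℤ), 1 ≤ u₀ → E ≤ (({u : ℕ | u₀ ≤ u ∧ u < u₀ + T ∧ u ≡ 1 [MOD Q] ∧
        ∀ p : ℕ, p.Prime → p ≤ Y →
          ¬ (p : ℤ) ∣ G (A * Q ^ 4) (B * Q ^ 6) u v}.ncard : ℕ) : ℝ)) :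
    (((Ioc N (3 * N)).filter (fun v : ℕ => v ≡ a' [MOD Q] ∧ Rough Y v ∧
        Squarefree v)).card : ℝ) * E ≤
      2 * N * (w * (T / Y + 1)) + 2 * N * (3 * (T / Y + P₁)) +
      3 * ((3 * (k : ℝ) ^ 4 * N) ^ 2 / P₁ + Real.sqrt (2 * (3 * (k : ℝ) ^ 4 * N) ^ 3)) +
      2 ^ R * ((S A B M a Y X H).ncard : ℝ) := by
  set A' : ℤ := A * Q ^ 4 with hA'
  set B' : ℤ := B * Q ^ 6 with hB'
  have hNz : (0 : ℤ) < N := by exact_mod_cast hN
  have hkz : (2 : ℤ) ≤ k := by exact_mod_cast hk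
  set V := (Ioc N (3 * N)).filter (fun v : ℕ => v ≡ a' [MOD Q] ∧ Rough Y v ∧ Squarefree v)
    with hV
  -- the windows
  have hwin : ∀ v : ℕ, ∃ u₀ : ℕ, v ∈ V → ((k : ℤ) ^ 3 * N < u₀ ∧ ∀ u : ℕ, u₀ ≤ u → u < u₀ + T →
      (u : ℤ) ≤ 3 * k ^ 4 * N ∧ X ≤ ((v * G A' B' u v : ℤ) : ℝ) ∧
      ((v * G A' B' u v : ℤ) : ℝ) ≤ X + H) := by
    intro v
    by_cases hv : v ∈ V
    · rw [hV, mem_filter, mem_Ioc] at hv
      obtain ⟨u₀, h1, h2⟩ := window (A := A') (B := B') (N := N) (k := k) (v := v) (T := T)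
        (X := X) (H := H) hΛ hA hB hNz hkz hkΛ (by exact_mod_cast hv.1.1)
        (by exact_mod_cast hv.1.2) (by exact_mod_cast hX1) (by exact_mod_cast hX2)
        (by exact_mod_cast hT) (by exact_mod_cast hTN)
      exact ⟨u₀, fun _ => ⟨h1, h2⟩⟩
    · exact ⟨0, fun h => absurd h hv⟩
  choose f hf using hwin
  set W : ℕ := 3 * k ^ 4 * N with hW
  set PP := ((range (W + 1)) ×ˢ V).filter (fun x : ℕ × ℕ => f x.2 ≤ x.1 ∧ x.1 < f x.2 + T ∧
    x.1 ≡ 1 [MOD Q] ∧ ∀ p : ℕ, p.Prime → p ≤ Y → ¬ (p : ℤ) ∣ G A' B' x.1 x.2) with hPP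
  have hk4 : (0 : ℤ) < (k : ℤ) ^ 4 := by positivity
  have hk3 : (0 : ℤ) < (k : ℤ) ^ 3 := by positivity
  -- facts on pairs
  have hfact : ∀ x ∈ PP, x.2 ∈ V ∧ f x.2 ≤ x.1 ∧ x.1 < f x.2 + T ∧ 4 * Λ * x.2 ≤ x.1 ∧
      0 < x.2 ∧ x.2 ≤ x.1 ∧ x.1 ≤ W ∧ N < x.1 := by
    intro x hx
    rw [hPP, mem_filter, mem_product, mem_range] at hx
    obtain ⟨⟨h1, h2⟩, h3, h4, -⟩ := hx
    obtain ⟨h5, h6⟩ := hf x.2 h2
    have h7 := h2
    rw [hV, mem_filter, mem_Ioc] at h7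
    obtain ⟨⟨h8, h9⟩, -⟩ := h7
    have h10 : (k : ℤ) ^ 3 * N ≤ x.1 := by
      have : (f x.2 : ℤ) ≤ x.1 := by exact_mod_cast h3
      linarith
    have h11 : 4 * Λ * x.2 ≤ x.1 := by
      have e1 : 4 * Λ * (x.2 : ℤ) ≤ 4 * Λ * (3 * N) :=
        mul_le_mul_of_nonneg_left (by exact_mod_cast h9) (by linarith)
      have e2 : 12 * Λ * (N : ℤ) ≤ (k : ℤ) ^ 3 * N := mul_le_mul_of_nonneg_right hkΛ hNz.le
      linarith
    have h12 : (x.2 : ℤ) * 1 ≤ x.2 * (4 * Λ) :=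
      mul_le_mul_of_nonneg_left (by linarith) (by positivity)
    have h13 : (N : ℤ) < x.1 := by
      have e1 : (1 : ℤ) < (k : ℤ) ^ 3 := by
        calc (1 : ℤ) < 2 ^ 3 := by norm_num
          _ ≤ (k : ℤ) ^ 3 := pow_le_pow_left₀ (by norm_num) hkz 3
      have e2 : 1 * (N : ℤ) < (k : ℤ) ^ 3 * N := mul_lt_mul_of_pos_right e1 hNz
      linarith
    refine ⟨h2, h3, h4, h11, by omega, ?_, by omega, by exact_mod_cast h13⟩
    have : (x.2 : ℤ) ≤ x.1 := by linarith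
    exact_mod_cast this
  -- lower bound
  have hlow : (V.card : ℝ) * E ≤ PP.card := by
    have h1 : (PP.card : ℝ) = ∑ v ∈ V, ((PP.filter (fun x => x.2 = v)).card : ℝ) := by
      rw [card_eq_sum_card_fiberwise (f := Prod.snd) (t := V)
        (fun x hx => (hfact x hx).1)]
      push_cast
      rfl
    rw [h1, ← nsmul_eq_mul, ← sum_const]
    apply sum_le_sum
    intro v hv
    obtain ⟨h2, h3⟩ := hf v hv
    refine (hE (f v) v (by
      have e1 : (0 : ℤ) < (k : ℤ) ^ 3 * N := mul_pos hk3 hNz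
      have e2 : (0 : ℤ) < f v := e1.trans h2
      omega)).trans ?_
    rw [Nat.cast_le]
    have hinj : Set.InjOn (fun u : ℕ => ((u, v) : ℕ × ℕ)) {u : ℕ | f v ≤ u ∧ u < f v + T ∧
        u ≡ 1 [MOD Q] ∧ ∀ p : ℕ, p.Prime → p ≤ Y → ¬ (p : ℤ) ∣ G A' B' u v} := by
      intro u _ u' _ h
      exact congrArg Prod.fst h
    rw [← hinj.ncard_image, ← Set.ncard_coe_finset]
    apply Set.ncard_le_ncard
    · rintro x ⟨u, ⟨h4, h5, h6, h7⟩, rfl⟩
      rw [mem_coe, mem_filter, hPP, mem_filter, mem_product, mem_range]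
      refine ⟨⟨⟨?_, hv⟩, h4, h5, h6, h7⟩, rfl⟩
      have h8 := (h3 u h4 h5).1
      have h9 : (u : ℤ) ≤ (W : ℕ) := by rw [hW]; push_cast; exact h8
      change u < W + 1
      omega
    · exact Finset.finite_toSet _
  -- the four parts
  set D1 := PP.filter (fun x => ¬ Nat.Coprime x.1 x.2) with hD1
  set D2 := PP.filter (fun x => Nat.Coprime x.1 x.2 ∧ ∃ p : ℕ, p.Prime ∧ Y < p ∧ p ≤ P₁ ∧
      ((p ^ 2 : ℕ) : ℤ) ∣ G A' B' x.1 x.2) with hD2
  set D3 := PP.filter (fun x => Nat.Coprime x.1 x.2 ∧ ∃ p : ℕ, p.Prime ∧ P₁ < p ∧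
      ((p ^ 2 : ℕ) : ℤ) ∣ G A' B' x.1 x.2) with hD3
  set G0 := PP.filter (fun x => Nat.Coprime x.1 x.2 ∧ ∀ p : ℕ, p.Prime →
      ¬ ((p ^ 2 : ℕ) : ℤ) ∣ G A' B' x.1 x.2) with hG0
  have hcov : PP ⊆ ((D1 ∪ D2) ∪ D3) ∪ G0 := by
    intro x hx
    by_cases hc : Nat.Coprime x.1 x.2
    · by_cases hs : ∃ p : ℕ, p.Prime ∧ ((p ^ 2 : ℕ) : ℤ) ∣ G A' B' x.1 x.2
      · obtain ⟨p, hp, hdvd⟩ := hs
        have hYp : Y < p := by
          by_contra hcon
          push Not at hcon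
          rw [hPP, mem_filter] at hx
          refine hx.2.2.2.2 p hp hcon (dvd_trans ?_ hdvd)
          push_cast
          exact dvd_pow_self _ two_ne_zero
        by_cases hpP : p ≤ P₁
        · exact mem_union_left _ (mem_union_left _ (mem_union_right _
            (mem_filter.2 ⟨hx, hc, p, hp, hYp, hpP, hdvd⟩)))
        · push Not at hpP
          exact mem_union_left _ (mem_union_right _ (mem_filter.2 ⟨hx, hc, p, hp, hpP, hdvd⟩))
      · push Not at hs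
        exact mem_union_right _ (mem_filter.2 ⟨hx, hc, hs⟩)
    · exact mem_union_left _ (mem_union_left _ (mem_union_left _ (mem_filter.2 ⟨hx, hc⟩)))
  have hcard : PP.card ≤ D1.card + D2.card + D3.card + G0.card :=
    (card_le_card hcov).trans ((card_union_le _ _).trans (Nat.add_le_add_right
      ((card_union_le _ _).trans (Nat.add_le_add_right (card_union_le _ _) _)) _))
  have hVcard : (V.card : ℝ) ≤ 2 * N := by
    have h1 : V.card ≤ (Ioc N (3 * N)).card := card_le_card (filter_subset _ _)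
    rw [Nat.card_Ioc] at h1
    have h2 : V.card ≤ 2 * N := by omega
    exact_mod_cast h2
  -- D1
  have hd1 : (D1.card : ℝ) ≤ 2 * N * (w * (T / Y + 1)) := by
    have h1 : (D1.card : ℝ) = ∑ v ∈ V, ((D1.filter (fun x => x.2 = v)).card : ℝ) := by
      rw [card_eq_sum_card_fiberwise (f := Prod.snd) (t := V)
        (fun x hx => (hfact x (mem_filter.1 hx).1).1)]
      push_cast
      rfl
    rw [h1]
    have h2 : ∀ v ∈ V, ((D1.filter (fun x => x.2 = v)).card : ℝ) ≤ w * (T / Y + 1) := by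
      intro v hv
      have hv' := hv
      rw [hV, mem_filter, mem_Ioc] at hv'
      have h3 := bad1 (u₀ := f v) (T := T) hY (by omega : v ≠ 0) (by
        intro p hp hpv
        by_contra hcon
        push Not at hcon
        exact hv'.2.2.1 p hp hcon (by exact_mod_cast hpv))
      have h4 : (D1.filter (fun x => x.2 = v)).card ≤
          ((Ico (f v) (f v + T)).filter (fun u => ¬ Nat.Coprime u v)).card := by
        apply card_le_card_of_injOn (fun x : ℕ × ℕ => x.1)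
        · intro x hx
          rw [mem_coe, mem_filter, hD1, mem_filter] at hx
          obtain ⟨⟨hx1, hx2⟩, hx3⟩ := hx
          have h5 := hfact x hx1
          rw [mem_coe, mem_filter, mem_Ico]
          rw [hx3] at h5 hx2
          exact ⟨⟨h5.2.1, h5.2.2.1⟩, hx2⟩
        · intro x hx y hy hxy
          rw [mem_coe, mem_filter] at hx hy
          exact Prod.ext hxy (hx.2.trans hy.2.symm)
      have h6 : ((D1.filter (fun x => x.2 = v)).card : ℝ) ≤
          (((Ico (f v) (f v + T)).filter (fun u => ¬ Nat.Coprime u v)).card : ℝ) := by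
        exact_mod_cast h4
      refine (h6.trans h3).trans ?_
      apply mul_le_mul_of_nonneg_right _ (by positivity)
      exact_mod_cast hw v (by omega) hv'.1.2
    calc ∑ v ∈ V, ((D1.filter (fun x => x.2 = v)).card : ℝ) ≤ ∑ v ∈ V, (w * (T / Y + 1) : ℝ) :=
          sum_le_sum h2
      _ = V.card * (w * (T / Y + 1)) := by rw [sum_const, nsmul_eq_mul]
      _ ≤ 2 * N * (w * (T / Y + 1)) := mul_le_mul_of_nonneg_right hVcard (by positivity)
  -- D2
  have hd2 : (D2.card : ℝ) ≤ 2 * N * (3 * (T / Y + P₁)) := by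
    have h1 : (D2.card : ℝ) = ∑ v ∈ V, ((D2.filter (fun x => x.2 = v)).card : ℝ) := by
      rw [card_eq_sum_card_fiberwise (f := Prod.snd) (t := V)
        (fun x hx => (hfact x (mem_filter.1 hx).1).1)]
      push_cast
      rfl
    rw [h1]
    have h2 : ∀ v ∈ V, ((D2.filter (fun x => x.2 = v)).card : ℝ) ≤ 3 * (T / Y + P₁) := by
      intro v hv
      have h3 := bad2 (A := A') (B := B') (u₀ := f v) (T := T) (P₁ := P₁) (v := v) hY hdisc
      have h4 : (D2.filter (fun x => x.2 = v)).card ≤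
          ((Ico (f v) (f v + T)).filter (fun u => Nat.Coprime u v ∧ ∃ p : ℕ, p.Prime ∧ Y < p ∧
            p ≤ P₁ ∧ ((p ^ 2 : ℕ) : ℤ) ∣ G A' B' u v)).card := by
        apply card_le_card_of_injOn (fun x : ℕ × ℕ => x.1)
        · intro x hx
          rw [mem_coe, mem_filter, hD2, mem_filter] at hx
          obtain ⟨⟨hx1, hx2⟩, hx3⟩ := hx
          have h5 := hfact x hx1
          rw [mem_coe, mem_filter, mem_Ico]
          rw [hx3] at h5 hx2
          exact ⟨⟨h5.2.1, h5.2.2.1⟩, hx2⟩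
        · intro x hx y hy hxy
          rw [mem_coe, mem_filter] at hx hy
          exact Prod.ext hxy (hx.2.trans hy.2.symm)
      have h6 : ((D2.filter (fun x => x.2 = v)).card : ℝ) ≤
          (((Ico (f v) (f v + T)).filter (fun u => Nat.Coprime u v ∧ ∃ p : ℕ, p.Prime ∧ Y < p ∧
            p ≤ P₁ ∧ ((p ^ 2 : ℕ) : ℤ) ∣ G A' B' u v)).card : ℝ) := by
        exact_mod_cast h4
      exact h6.trans h3
    calc ∑ v ∈ V, ((D2.filter (fun x => x.2 = v)).card : ℝ) ≤ ∑ v ∈ V, (3 * (T / Y + P₁) : ℝ) :=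
          sum_le_sum h2
      _ = V.card * (3 * (T / Y + P₁)) := by rw [sum_const, nsmul_eq_mul]
      _ ≤ 2 * N * (3 * (T / Y + P₁)) := mul_le_mul_of_nonneg_right hVcard (by positivity)
  -- positivity of the form
  have hGpos : ∀ x ∈ PP, 0 < G A' B' x.1 x.2 ∧ G A' B' x.1 x.2 ≤ 2 * (W : ℤ) ^ 3 := by
    intro x hx
    obtain ⟨-, -, -, h1, h2, h3, h4, h5⟩ := hfact x hx
    have h6 := G_bd hΛ hA hB (by exact_mod_cast h2 : (0 : ℤ) < x.2) h1
    have h7 : (0 : ℤ) < x.1 := by omega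
    have h8 : (0 : ℤ) < (x.1 : ℤ) ^ 3 := by positivity
    have h9 : (x.1 : ℤ) ^ 3 ≤ (W : ℤ) ^ 3 := pow_le_pow_left₀ h7.le (by exact_mod_cast h4) 3
    constructor <;> linarith [h6.1, h6.2]
  -- D3
  have hd3 : (D3.card : ℝ) ≤ 3 * ((3 * (k : ℝ) ^ 4 * N) ^ 2 / P₁ +
      Real.sqrt (2 * (3 * (k : ℝ) ^ 4 * N) ^ 3)) := by
    have h1 := bad3 (A := A') (B := B') (U := W) (P₁ := P₁) (P₂ := Nat.sqrt (2 * W ^ 3))
      (by omega) D3 (by
        intro x hx
        rw [hD3, mem_filter] at hx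
        obtain ⟨hx, hc, p, hp, hpP, hdvd⟩ := hx
        obtain ⟨-, -, -, -, h2, h3, h4, -⟩ := hfact x hx
        refine ⟨h2, h3, h4, hc, p, hp, hpP, ?_, hdvd⟩
        obtain ⟨g1, g2⟩ := hGpos x hx
        have h5 := (Int.le_of_dvd g1 hdvd).trans g2
        rw [Nat.le_sqrt']
        exact_mod_cast h5)
      (fun p hp hpP => hdisc p hp (by omega))
    have h2 : ((Nat.sqrt (2 * W ^ 3) : ℕ) : ℝ) ≤ Real.sqrt ((2 * W ^ 3 : ℕ) : ℝ) :=
      Real.nat_sqrt_le_real_sqrt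
    have hWr : (W : ℝ) = 3 * (k : ℝ) ^ 4 * N := by rw [hW]; push_cast; ring
    push_cast at h2
    rw [hWr] at h1 h2
    linarith
  -- G0
  have hg0 : (G0.card : ℝ) ≤ 2 ^ R * ((S A B M a Y X H).ncard : ℝ) := by
    have hgood : ∀ x ∈ G0, Good A B Q a' Y x.1 x.2 := by
      intro x hx
      rw [hG0, mem_filter] at hx
      obtain ⟨hx, hc, hs⟩ := hx
      have h1 := hfact x hx
      have h2 := (hGpos x hx).1
      have h3 := hx
      rw [hPP, mem_filter] at h3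
      have h4 := h1.1
      rw [hV, mem_filter] at h4
      exact ⟨by omega, by omega, hc, h3.2.2.2.1, h4.2.1, h4.2.2.1, h4.2.2.2, h3.2.2.2.2, hs, h2⟩
    have hval : ∀ x ∈ G0, 0 < (x.2 : ℤ) * G A' B' x.1 x.2 := by
      intro x hx
      rw [hG0, mem_filter] at hx
      exact mul_pos (by exact_mod_cast (hfact x hx.1).2.2.2.2.1) (hGpos x hx.1).1
    have h1 : G0.card ≤ 2 ^ R * (S_finite A B M a Y X H).toFinset.card := by
      apply card_le_mul_card_image_of_maps_to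
        (f := fun x : ℕ × ℕ => ((x.2 : ℤ) * G A' B' x.1 x.2).toNat)
      · intro x hx
        rw [Set.Finite.mem_toFinset]
        have h2 := hgood x hx
        have h3 := hval x hx
        have h4 : ((((x.2 : ℤ) * G A' B' x.1 x.2).toNat : ℕ) : ℤ) =
            (x.2 : ℤ) * G A' B' x.1 x.2 := Int.toNat_of_nonneg h3.le
        have hxP : x ∈ PP := (mem_filter.1 (by rw [hG0] at hx; exact hx)).1
        have h5 := hfact x hxP
        obtain ⟨a1, a2, a3, a4⟩ := h2.arith hQ hH (by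
          have : (N : ℤ) < x.1 := by exact_mod_cast h5.2.2.2.2.2.2.2
          linarith) h4
        have h6 := (hf x.2 h5.1).2 x.1 h5.2.1 h5.2.2.1
        have h7 : ((((x.2 : ℤ) * G A' B' x.1 x.2).toNat : ℕ) : ℝ) =
            (((x.2 : ℤ) * G A' B' x.1 x.2 : ℤ) : ℝ) := by exact_mod_cast h4
        refine ⟨by rw [h7]; exact h6.2.1, by rw [h7]; exact h6.2.2, ?_, a2, a3, a4⟩
        exact (a1.of_dvd hMQ).trans haa
      · intro n hn
        rw [Set.Finite.mem_toFinset] at hn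
        have hsqn : Squarefree n := hn.2.2.2.1
        refine le_trans ?_ (card_div hsqn (hR n hn))
        apply card_le_card_of_injOn (fun x : ℕ × ℕ => x.2)
        · intro x hx
          rw [mem_coe, mem_filter] at hx
          have h3 := hval x hx.1
          have h4 : (n : ℤ) = (x.2 : ℤ) * G A' B' x.1 x.2 := by
            rw [← hx.2]; exact Int.toNat_of_nonneg h3.le
          rw [mem_coe, Nat.mem_divisors]
          refine ⟨?_, hsqn.ne_zero⟩
          have : (x.2 : ℤ) ∣ n := by rw [h4]; exact dvd_mul_right _ _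
          exact_mod_cast this
        · intro x hx y hy hxy
          rw [mem_coe, mem_filter] at hx hy
          have h3 := hval x hx.1
          have h3' := hval y hy.1
          have h4 : (n : ℤ) = (x.2 : ℤ) * G A' B' x.1 x.2 := by
            rw [← hx.2]; exact Int.toNat_of_nonneg h3.le
          have h4' : (n : ℤ) = (y.2 : ℤ) * G A' B' y.1 y.2 := by
            rw [← hy.2]; exact Int.toNat_of_nonneg h3'.le
          have hxy' : x.2 = y.2 := hxy
          have hxP : x ∈ PP := (mem_filter.1 (by have := hx.1; rw [hG0] at this; exact this)).1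
          have hyP : y ∈ PP := (mem_filter.1 (by have := hy.1; rw [hG0] at this; exact this)).1
          obtain ⟨-, -, -, fx, fx2, -, -, -⟩ := hfact x hxP
          obtain ⟨-, -, -, fy, fy2, -, -, -⟩ := hfact y hyP
          have hv0 : (0 : ℤ) < x.2 := by exact_mod_cast fx2
          have hGG : G A' B' x.1 x.2 = G A' B' y.1 x.2 := by
            rw [h4', ← hxy'] at h4
            exact (mul_left_cancel₀ hv0.ne' h4).symm
          rw [← hxy'] at fy
          have key : ∀ s t : ℕ, 4 * Λ * x.2 ≤ (s : ℤ) → s < t →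
              G A' B' s x.2 = G A' B' t x.2 → False := by
            intro s t hs hst hG
            have h5 := (G_step (A := A') (B := B') (u := s) (v := x.2) (s := (t : ℤ) - s)
              hΛ hA hv0 hs (by omega)).1
            rw [show (s : ℤ) + (t - s) = t by ring, hG, sub_self] at h5
            have h6 : (0 : ℤ) < s := by nlinarith
            have h7 : (0 : ℤ) < ((t : ℤ) - s) * (s : ℤ) ^ 2 := by
              have : (0 : ℤ) < t - s := by omega
              positivity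
            linarith
          refine Prod.ext ?_ hxy'
          rcases lt_trichotomy x.1 y.1 with h | h | h
          · exact (key x.1 y.1 fx h hGG).elim
          · exact h
          · exact (key y.1 x.1 fy h hGG.symm).elim
    have hS : (S_finite A B M a Y X H).toFinset.card = (S A B M a Y X H).ncard :=
      (Set.ncard_eq_toFinset_card _ _).symm
    rw [hS] at h1
    exact_mod_cast h1
  have hcard' : (PP.card : ℝ) ≤ D1.card + D2.card + D3.card + G0.card := by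
    exact_mod_cast hcard
  linarith

end Pool.Agent.TH646.AT
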