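import Pool.Agent.H661R3.SQ.SVQ

set_option autoImplicit false

open Finset

namespace Pool.Agent.TH646.AT

open Pool.Agent.H410R2.ED (Pr)
open Pool.Agent.H661R3.OP (Rough)
open Pool.Agent.H661R3.OP.SVA (prime_of_mem_Pr)

/-- the sieve for a periodic condition with at most `k` classes modulo each prime -/
theorem sieve_gen : ∃ c₀ : ℕ, ∃ c : ℝ, 0 < c ∧ ∀ (k : ℕ), 1 ≤ k →
    ∀ (P : ℕ → ℕ → Prop) [∀ l, DecidablePred (P l)] (J : ℕ),
    (∀ l ∈ Pr k J, ∀ n, P l (n + l) ↔ P l n) →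
    (∀ l ∈ Pr k J, ((range l).filter (P l)).card ≤ k) → ∀ T : ℕ,
    (T : ℝ) / 2 * (c / 2 ^ J) ^ (2 * k) - ((2 : ℝ) ^ 2 ^ J) ^ (c₀ * k) ≤
      (((range T).filter (fun n => ∀ l ∈ Pr k J, ¬ P l n)).card : ℝ) := by
  classical
  obtain ⟨c₀, hc₀, hB⟩ := Pool.Agent.H483R2.bhk
  obtain ⟨c, C', hc, -, hM⟩ := Pool.Agent.Helper112.LP.mertens_prod
  refine ⟨c₀, c, hc, ?_⟩
  intro k hk1 P hdec J hper hcnt T
  set g : ℕ → ℝ := fun l => if l ∈ Pr k J then (((range l).filter (P l)).card : ℝ) / l else 0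
    with hg
  set nn : ℕ → ℕ := fun n => ∏ l ∈ (Pr k J).filter (fun l => P l n), l with hnn
  have hdvd : ∀ n : ℕ, ∀ l ∈ Pr k J, (l ∣ nn n ↔ P l n) := by
    intro n l hl
    rw [hnn]
    simp only
    rw [Prime.dvd_finsetProd_iff (prime_of_mem_Pr hl).prime]
    constructor
    · rintro ⟨p, hp, hlp⟩
      rw [mem_filter] at hp
      have : l = p :=
        (Nat.prime_dvd_prime_iff_eq (prime_of_mem_Pr hl) (prime_of_mem_Pr hp.1)).1 hlp
      subst this
      exact hp.2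
    · intro h
      exact ⟨l, mem_filter.2 ⟨hl, h⟩, dvd_rfl⟩
  have hg0 : ∀ l, l.Prime → 0 ≤ g l ∧ g l ≤ (k : ℝ) / l := by
    intro l hl
    simp only [hg]
    split_ifs with h
    · refine ⟨by positivity, ?_⟩
      apply div_le_div_of_nonneg_right _ (Nat.cast_nonneg _)
      exact_mod_cast hcnt l h
    · exact ⟨le_rfl, by positivity⟩
  have hmain := hB k hk1 g hg0 J ℕ (Ico 0 (0 + T)) nn T 1 (Nat.cast_nonneg _)
    zero_le_one (by
      intro D hD
      have h1 := Pool.Agent.H483R2.countCRT D P (fun l hl => prime_of_mem_Pr (hD hl))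
        (fun l hl n => hper l (hD hl) n) 0 T
      have hset : (Ico 0 (0 + T)).filter (fun ω => ∀ l ∈ D, l ∣ nn ω) =
          (Ico 0 (0 + T)).filter (fun n => ∀ l ∈ D, P l n) := by
        apply filter_congr
        intro n _
        exact forall₂_congr fun l hl => hdvd n l (hD hl)
      rw [hset, mul_one]
      have h2 : ∏ l ∈ D, g l = ∏ l ∈ D, ((((range l).filter (P l)).card : ℝ) / l) := by
        apply prod_congr rfl
        intro l hl
        simp only [hg]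
        rw [if_pos (hD hl)]
      rw [h2]
      refine h1.trans ?_
      calc ∏ l ∈ D, (((range l).filter (P l)).card : ℝ)
          ≤ ∏ l ∈ D, (k : ℝ) := by
            refine prod_le_prod (fun _ _ => Nat.cast_nonneg _) fun l hl => ?_
            exact_mod_cast hcnt l (hD hl)
        _ = (k : ℝ) ^ D.card := by rw [prod_const])
  have hlow := hmain.1
  have hprod := Pool.Agent.H661R3.SQ.SVQA.prod_geM c J k hc (hM J).1 g
    (fun l hl => (hg0 l (prime_of_mem_Pr hl)).2)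
  have hset2 : (Ico 0 (0 + T)).filter (fun ω => ∀ l ∈ Pr k J, ¬ l ∣ nn ω) =
      (range T).filter (fun n => ∀ l ∈ Pr k J, ¬ P l n) := by
    rw [zero_add, ← range_eq_Ico]
    apply filter_congr
    intro n _
    exact forall₂_congr fun l hl => not_congr (hdvd n l hl)
  rw [hset2, mul_one] at hlow
  have h7 : (T : ℝ) / 2 * (c / 2 ^ J) ^ (2 * k) ≤ (T : ℝ) / 2 * ∏ l ∈ Pr k J, (1 - g l) :=
    mul_le_mul_of_nonneg_left hprod (by positivity)
  linarith

/-- the cubic form -/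
def G (A B u v : ℤ) : ℤ := u ^ 3 + A * u * v ^ 2 + B * v ^ 3

theorem G_sub (A B u u' v : ℤ) : G A B u v - G A B u' v =
    (u - u') * (u ^ 2 + u * u' + u' ^ 2 + A * v ^ 2) := by
  unfold G; ring

/-- at most three classes -/
theorem three {l : ℕ} (hl : l.Prime) (A B v u₁ Q : ℤ) (hQ : ¬ (l : ℤ) ∣ Q) :
    ((range l).filter (fun n : ℕ => (l : ℤ) ∣ G A B (u₁ + Q * n) v)).card ≤ 3 := by
  classical
  have : Fact l.Prime := ⟨hl⟩
  set R : Polynomial (ZMod l) := Polynomial.X ^ 3 +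
    (Polynomial.C (A * v ^ 2 : ZMod l) * Polynomial.X + Polynomial.C (B * v ^ 3 : ZMod l)) with hR
  have hRdeg : R.natDegree = 3 := by
    rw [hR]
    compute_degree!
  have hR0 : R ≠ 0 := by
    intro h0
    rw [h0, Polynomial.natDegree_zero] at hRdeg
    omega
  have hQ0 : (Q : ZMod l) ≠ 0 := by
    intro h
    exact hQ ((ZMod.intCast_zmod_eq_zero_iff_dvd _ _).1 h)
  have h1 : ((range l).filter (fun n : ℕ => (l : ℤ) ∣ G A B (u₁ + Q * n) v)).card ≤
      R.roots.toFinset.card := by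
    apply card_le_card_of_injOn (fun n : ℕ => (u₁ + Q * n : ZMod l))
    · intro n hn
      rw [mem_coe, mem_filter] at hn
      rw [mem_coe, Multiset.mem_toFinset, Polynomial.mem_roots hR0, Polynomial.IsRoot.def, hR]
      have h2 : ((G A B (u₁ + Q * n) v : ℤ) : ZMod l) = 0 :=
        (ZMod.intCast_zmod_eq_zero_iff_dvd _ _).2 hn.2
      unfold G at h2
      push_cast at h2
      simp only [Polynomial.eval_add, Polynomial.eval_pow, Polynomial.eval_X, Polynomial.eval_mul,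
        Polynomial.eval_C]
      linear_combination h2
    · intro n hn n' hn' h
      rw [mem_coe, mem_filter, mem_range] at hn hn'
      have h3 : (Q : ZMod l) * n = Q * n' := by
        simpa using h
      have h4 : (n : ZMod l) = n' := mul_left_cancel₀ hQ0 h3
      have h5 := (ZMod.natCast_eq_natCast_iff n n' l).1 h4
      exact Nat.ModEq.eq_of_lt_of_lt h5 hn.1 hn'.1
  refine h1.trans ?_
  calc R.roots.toFinset.card ≤ Multiset.card R.roots := Multiset.toFinset_card_le _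
    _ ≤ R.natDegree := Polynomial.card_roots' R
    _ = 3 := hRdeg

/-- the number of `u` for a fixed `v` -/
theorem countU : ∃ c₀ : ℕ, ∃ c : ℝ, 0 < c ∧ ∀ (A B : ℤ) (Q Y J T u₀ : ℕ) (v : ℤ), 0 < Q →
    30 ∣ Q → 1 ≤ u₀ → Y < 2 ^ 2 ^ J →
    ((T / Q : ℕ) : ℝ) / 2 * (c / 2 ^ J) ^ 6 - ((2 : ℝ) ^ 2 ^ J) ^ (c₀ * 3) ≤
      (({u : ℕ | u₀ ≤ u ∧ u < u₀ + T ∧ u ≡ 1 [MOD Q] ∧
        ∀ p : ℕ, p.Prime → p ≤ Y → ¬ (p : ℤ) ∣ G (A * Q ^ 4) (B * Q ^ 6) u v}.ncard : ℕ) : ℝ) := by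
  classical
  obtain ⟨c₀, c, hc, hS⟩ := sieve_gen
  refine ⟨c₀, c, hc, ?_⟩
  intro A B Q Y J T u₀ v hQ h30 hu₀ hJ
  obtain ⟨w, u₁, hu1, hu1a⟩ : ∃ w u₁ : ℕ, u₁ = 1 + Q * w ∧ u₀ ≤ u₁ ∧ u₁ ≤ u₀ + Q - 1 := by
    have h1 := Nat.div_add_mod (u₀ + Q - 2) Q
    have h2 := Nat.mod_lt (u₀ + Q - 2) hQ
    refine ⟨(u₀ + Q - 2) / Q, 1 + Q * ((u₀ + Q - 2) / Q), rfl, ?_, ?_⟩ <;> omega
  set P : ℕ → ℕ → Prop := fun l n => l ≤ Y ∧ ¬ l ∣ Q ∧
    (l : ℤ) ∣ G (A * Q ^ 4) (B * Q ^ 6) (u₁ + Q * n) v with hP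
  have hshift : ∀ l ∈ Pr 3 J, ∀ n, P l (n + l) ↔ P l n := by
    intro l _ n
    simp only [hP]
    refine and_congr_right fun _ => and_congr_right fun _ => ?_
    have h1 : (l : ℤ) ∣ G (A * Q ^ 4) (B * Q ^ 6) (u₁ + Q * ((n + l : ℕ) : ℤ)) v -
        G (A * Q ^ 4) (B * Q ^ 6) (u₁ + Q * n) v := by
      rw [G_sub]
      refine Dvd.dvd.mul_right ?_ _
      exact ⟨Q, by push_cast; ring⟩
    constructor
    · intro h
      have := dvd_sub h h1
      rwa [sub_sub_cancel] at this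
    · intro h
      have := dvd_add h h1
      rwa [add_sub_cancel] at this
  have h := hS 3 (by norm_num) P J hshift (by
    intro l hl
    by_cases hlQ : l ∣ Q
    · rw [filter_false_of_mem (fun n _ h => h.2.1 hlQ)]
      simp
    · have h1 := three (prime_of_mem_Pr hl) (A * Q ^ 4) (B * Q ^ 6) v u₁ Q
        (by intro h; exact hlQ (by exact_mod_cast h))
      refine le_trans (card_le_card ?_) h1
      intro n hn
      rw [mem_filter] at hn ⊢
      exact ⟨hn.1, hn.2.2.2⟩) (T / Q)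
  refine h.trans ?_
  rw [Nat.cast_le, ← card_image_of_injective (f := fun n : ℕ => u₁ + Q * n) _ (by
    intro a b hab
    have h1 : Q * a = Q * b := by
      have : u₁ + Q * a = u₁ + Q * b := hab
      omega
    exact Nat.eq_of_mul_eq_mul_left hQ h1), ← Set.ncard_coe_finset]
  apply Set.ncard_le_ncard
  · intro u hu
    rw [mem_coe, mem_image] at hu
    obtain ⟨n, hn, rfl⟩ := hu
    rw [mem_filter, mem_range] at hn
    obtain ⟨hn1, hn2⟩ := hn
    have hnT : Q * n + Q ≤ T := by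
      have h1 : n + 1 ≤ T / Q := hn1
      have h2 := Nat.mul_le_mul_left Q h1
      have h3 := Nat.mul_div_le T Q
      rw [mul_add, mul_one] at h2
      omega
    have hu1m : u₁ ≡ 1 [MOD Q] := by
      rw [hu1]
      exact (Nat.modEq_iff_dvd' (by omega)).2 (by simp) |>.symm
    refine ⟨by omega, by omega, ?_, ?_⟩
    · calc u₁ + Q * n ≡ 1 + 0 [MOD Q] :=
            Nat.ModEq.add hu1m ((Nat.modEq_zero_iff_dvd).2 (dvd_mul_right _ _))
        _ = 1 := rfl
    · intro p hp hpY hdvd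
      push_cast at hdvd
      by_cases hpQ : p ∣ Q
      · -- G ≡ 1 mod p
        have hpQ' : (p : ℤ) ∣ Q := by exact_mod_cast hpQ
        have h1 : (p : ℤ) ∣ (u₁ : ℤ) + Q * n - 1 := by
          rw [hu1]
          push_cast
          rw [show (1 : ℤ) + Q * w + Q * n - 1 = Q * (w + n) by ring]
          exact hpQ'.mul_right _
        have h2 : (p : ℤ) ∣ G (A * Q ^ 4) (B * Q ^ 6) (u₁ + Q * n) v - 1 := by
          have : G (A * Q ^ 4) (B * Q ^ 6) (u₁ + Q * n) v - 1 =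
              ((u₁ : ℤ) + Q * n - 1) * (((u₁ : ℤ) + Q * n) ^ 2 + ((u₁ : ℤ) + Q * n) + 1) +
              Q * (A * Q ^ 3 * (u₁ + Q * n) * v ^ 2 + B * Q ^ 5 * v ^ 3) := by
            unfold G; ring
          rw [this]
          exact dvd_add (h1.mul_right _) (hpQ'.mul_right _)
        have h3 := dvd_sub hdvd h2
        rw [sub_sub_cancel] at h3
        exact (Nat.prime_iff_prime_int.1 hp).not_isUnit (isUnit_of_dvd_one h3)
      · have hmem : p ∈ Pr 3 J := by
          unfold Pr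
          rw [mem_filter, mem_range]
          refine ⟨by omega, hp, ?_⟩
          by_contra hcon
          push Not at hcon
          have h2 := hp.two_le
          have h5 : p ∣ 30 := by
            interval_cases p
            · norm_num
            · norm_num
            · exact absurd hp (by norm_num)
            · norm_num
            · exact absurd hp (by norm_num)
          exact hpQ (h5.trans h30)
        exact hn2 p hmem ⟨hpY, hpQ, hdvd⟩
  · refine (Set.finite_Iio (u₀ + T)).subset ?_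
    rintro u ⟨-, h, -⟩
    exact h

open Classical in
/-- the number of `v` -/
theorem countV : ∃ c₀ : ℕ, ∃ c : ℝ, 0 < c ∧ ∀ (Q Y J N a : ℕ), 0 < Q → 2 ∣ Q → 1 ≤ Y →
    a.Coprime Q → Y < 2 ^ 2 ^ J →
    ((2 * N / Q : ℕ) : ℝ) / 2 * (c / 2 ^ J) ^ 2 - ((2 : ℝ) ^ 2 ^ J) ^ c₀ -
      (3 * N / Y + Real.sqrt (3 * N)) ≤
      (((Ioc N (3 * N)).filter (fun v : ℕ => v ≡ a [MOD Q] ∧ Rough Y v ∧
        Squarefree v)).card : ℝ) := by
  obtain ⟨c₀, c, hc, hS⟩ := Pool.Agent.H661R3.SQ.SVQA.rough_low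
  refine ⟨c₀, c, hc, ?_⟩
  intro Q Y J N a hQ h2Q hY hcop hJ
  set T₀ : ℤ := (N + Q - a : ℤ) / Q with hT₀
  have hQz : (0 : ℤ) < Q := by exact_mod_cast hQ
  have h := hS 1 (Fin 1) (by simp) (fun _ => Q) (fun _ => a) Y J hJ
    (by
      intro i p hp hpY h1 h2
      have h1' : p ∣ Q := by exact_mod_cast h1
      have h2' : p ∣ a := by exact_mod_cast h2
      exact Nat.Prime.one_lt hp |>.ne' (Nat.dvd_one.1 (by
        have := Nat.dvd_gcd h2' h1'
        rwa [hcop.gcd_eq_one] at this)))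
    (by
      intro i p hp hp2
      have : p = 2 := by have := hp.two_le; omega
      rw [this]
      exact_mod_cast h2Q)
    T₀ (2 * N / Q)
  rw [show max 1 1 = 1 from rfl, mul_one, mul_one] at h
  set S : Set ℤ := {t : ℤ | T₀ ≤ t ∧ t < T₀ + (2 * N / Q : ℕ) ∧
    ∀ i : Fin 1, Rough Y ((fun _ => (Q : ℤ)) i * t + (fun _ => (a : ℤ)) i)} with hSd
  -- all rough ones
  set Vr := (Ioc N (3 * N)).filter (fun v : ℕ => v ≡ a [MOD Q] ∧ Rough Y v) with hVr
  have hT0a : (Q : ℤ) * T₀ + a ≤ N + Q ∧ (N : ℤ) + 1 ≤ Q * T₀ + a := by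
    have h1 := Int.mul_ediv_add_emod (N + Q - a : ℤ) Q
    have h2 := Int.emod_nonneg (N + Q - a : ℤ) hQz.ne'
    have h3 := Int.emod_lt_of_pos (N + Q - a : ℤ) hQz
    constructor <;> · rw [hT₀]; omega
  have hle : S.ncard ≤ Vr.card := by
    have hinj : Set.InjOn (fun t : ℤ => (Q * t + a).toNat) S := by
      intro t ht t' ht' htt
      have h1 : (Q : ℤ) * T₀ ≤ Q * t := mul_le_mul_of_nonneg_left ht.1 hQz.le
      have h2 : (Q : ℤ) * T₀ ≤ Q * t' := mul_le_mul_of_nonneg_left ht'.1 hQz.le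
      have h3 : (Q * t + a).toNat = (Q * t' + a).toNat := htt
      have h4 : (Q : ℤ) * t = Q * t' := by omega
      exact mul_left_cancel₀ hQz.ne' h4
    rw [← hinj.ncard_image, ← Set.ncard_coe_finset]
    apply Set.ncard_le_ncard
    · rintro v ⟨t, ⟨ht1, ht2, ht3⟩, rfl⟩
      have h1 : (Q : ℤ) * T₀ ≤ Q * t := mul_le_mul_of_nonneg_left ht1 hQz.le
      have h2 : (Q : ℤ) * t ≤ Q * (T₀ + (2 * N / Q : ℕ) - 1) :=
        mul_le_mul_of_nonneg_left (by omega) hQz.le
      have h3 : (Q : ℤ) * ((2 * N / Q : ℕ) : ℤ) ≤ 2 * N := by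
        have := Nat.mul_div_le (2 * N) Q
        exact_mod_cast this
      have h4 : (Q : ℤ) * (T₀ + (2 * N / Q : ℕ) - 1) = Q * T₀ + Q * ((2 * N / Q : ℕ) : ℤ) - Q := by
        ring
      rw [h4] at h2
      have hpos : 0 ≤ (Q : ℤ) * t + a := by omega
      rw [mem_coe, hVr, mem_filter, mem_Ioc]
      simp only
      refine ⟨⟨by omega, by omega⟩, ?_, ?_⟩
      · rw [← Int.natCast_modEq_iff, Int.toNat_of_nonneg hpos]
        exact (Int.modEq_iff_dvd.2 ⟨t, by ring⟩).symm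
      · rw [Int.toNat_of_nonneg hpos]
        exact ht3 0
    · exact Finset.finite_toSet _
  -- the ones with a square factor
  have hcov : Vr ⊆ (Ioc N (3 * N)).filter (fun v : ℕ => v ≡ a [MOD Q] ∧ Rough Y v ∧
      Squarefree v) ∪ (Ioc N (3 * N)).filter (fun v : ℕ => ∃ p : ℕ, p.Prime ∧ Y < p ∧
        (p : ℤ) ^ 2 ∣ v) := by
    intro v hv
    rw [hVr, mem_filter] at hv
    rw [mem_union, mem_filter, mem_filter]
    by_cases hsq : Squarefree v
    · exact Or.inl ⟨hv.1, hv.2.1, hv.2.2, hsq⟩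
    · right
      rw [Nat.squarefree_iff_prime_squarefree] at hsq
      push Not at hsq
      obtain ⟨p, hp, hpv⟩ := hsq
      refine ⟨hv.1, p, hp, ?_, by rw [sq]; exact_mod_cast hpv⟩
      by_contra hcon
      push Not at hcon
      exact hv.2.2 p hp hcon (by exact_mod_cast (dvd_of_mul_left_dvd hpv))
  have hbad := Pool.Agent.H661R3.SQ.SVQA.bad_count (κ := Fin 1) 1 (by simp) (fun _ => 1)
    (fun _ => 0) Y (Nat.sqrt (3 * N)) hY 1 (3 * N)
    (((Ioc N (3 * N)).filter (fun v : ℕ => ∃ p : ℕ, p.Prime ∧ Y < p ∧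
        (p : ℤ) ^ 2 ∣ v)).image (fun v : ℕ => (v : ℤ))) (by
      intro t ht
      rw [mem_image] at ht
      obtain ⟨v, hv, rfl⟩ := ht
      rw [mem_filter, mem_Ioc] at hv
      obtain ⟨⟨h1, h2⟩, p, hp, hYp, hdvd⟩ := hv
      refine ⟨by omega, by omega, 0, p, hp, hYp, ?_, ?_, by simpa using hdvd⟩
      · have := (Int.le_of_dvd (by omega) hdvd)
        rw [Nat.le_sqrt']
        have h3 : (v : ℤ) ≤ 3 * N := by exact_mod_cast h2
        exact_mod_cast this.trans h3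
      · intro h
        have := Int.le_of_dvd (by norm_num) h
        have h2 := hp.two_le
        omega)
  rw [card_image_of_injective _ Nat.cast_injective] at hbad
  have h2 : ((Nat.sqrt (3 * N) : ℕ) : ℝ) ≤ Real.sqrt ((3 * N : ℕ) : ℝ) :=
    Real.nat_sqrt_le_real_sqrt
  have h3 := (card_le_card hcov).trans (card_union_le _ _)
  have h4 : (S.ncard : ℝ) ≤ ((((Ioc N (3 * N)).filter (fun v : ℕ => v ≡ a [MOD Q] ∧ Rough Y v ∧
      Squarefree v)).card + ((Ioc N (3 * N)).filter (fun v : ℕ => ∃ p : ℕ, p.Prime ∧ Y < p ∧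
        (p : ℤ) ^ 2 ∣ v)).card : ℕ) : ℝ) := by
    exact_mod_cast hle.trans h3
  push_cast at h4 hbad h2
  simp only [one_mul] at hbad
  linarith

end Pool.Agent.TH646.AT
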