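import Pool.Agent.TH646.AT.Sieve

set_option autoImplicit false

open Finset

namespace Pool.Agent.TH646.AT

theorem sq_bound {Λ u v : ℤ} (hΛ : 1 ≤ Λ) (hv : 0 < v) (h : 4 * Λ * v ≤ u) :
    16 * Λ * v ^ 2 ≤ u ^ 2 := by
  have h1 : 4 * v ≤ u := by nlinarith
  calc 16 * Λ * v ^ 2 = (4 * Λ * v) * (4 * v) := by ring
    _ ≤ u * u := mul_le_mul h h1 (by positivity) (by linarith)
    _ = u ^ 2 := by ring

theorem G_bd {A B Λ u v : ℤ} (hΛ : 1 ≤ Λ) (hA : |A| ≤ Λ) (hB : |B| ≤ Λ) (hv : 0 < v)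
    (h : 4 * Λ * v ≤ u) : u ^ 3 ≤ 2 * G A B u v ∧ G A B u v ≤ 2 * u ^ 3 := by
  have h1 : 4 * v ≤ u := by nlinarith
  have hu : 0 < u := by linarith
  have h2 := sq_bound hΛ hv h
  have h3 : 16 * Λ * v ^ 2 * u ≤ u ^ 2 * u := mul_le_mul_of_nonneg_right h2 hu.le
  have h4 : 16 * Λ * v ^ 2 * (4 * v) ≤ u ^ 2 * u :=
    mul_le_mul h2 h1 (by positivity) (by positivity)
  have hA' := abs_le.1 hA
  have hB' := abs_le.1 hB
  have e0 : 0 < u * v ^ 2 := by positivity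
  have e1 : 0 < v ^ 3 := by positivity
  have a1 : A * u * v ^ 2 ≤ Λ * v ^ 2 * u := by nlinarith
  have a2 : -(Λ * v ^ 2 * u) ≤ A * u * v ^ 2 := by nlinarith
  have b1 : B * v ^ 3 ≤ Λ * v ^ 3 := by nlinarith
  have b2 : -(Λ * v ^ 3) ≤ B * v ^ 3 := by nlinarith
  have c1 : 16 * Λ * v ^ 2 * (4 * v) = 64 * (Λ * v ^ 3) := by ring
  have c2 : u ^ 2 * u = u ^ 3 := by ring
  have c3 : 16 * Λ * v ^ 2 * u = 16 * (Λ * v ^ 2 * u) := by ring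
  unfold G
  constructor <;> nlinarith

theorem G_step {A B Λ u v s : ℤ} (hΛ : 1 ≤ Λ) (hA : |A| ≤ Λ) (hv : 0 < v)
    (h : 4 * Λ * v ≤ u) (hs : 0 ≤ s) : s * u ^ 2 ≤ G A B (u + s) v - G A B u v ∧
      G A B (u + s) v - G A B u v ≤ s * (4 * (u + s) ^ 2) := by
  have h1 : 4 * v ≤ u := by nlinarith
  have hu : 0 < u := by linarith
  have h2 := sq_bound hΛ hv h
  have hA' := abs_le.1 hA
  have e1 : 0 < v ^ 2 := by positivity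
  have a1 : A * v ^ 2 ≤ Λ * v ^ 2 := mul_le_mul_of_nonneg_right hA'.2 e1.le
  have a2 : -(Λ * v ^ 2) ≤ A * v ^ 2 := by nlinarith
  have h3 : 16 * Λ * v ^ 2 = 16 * (Λ * v ^ 2) := by ring
  rw [h3] at h2
  have e2 : u ^ 2 ≤ (u + s) ^ 2 := pow_le_pow_left₀ hu.le (by linarith) 2
  have e3 : (u + s) * u ≤ (u + s) ^ 2 := by nlinarith
  have e4 : 0 ≤ (u + s) * u := by positivity
  have e5 : 0 ≤ u ^ 2 := by positivity
  rw [G_sub, show u + s - u = s by ring]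
  constructor
  · exact mul_le_mul_of_nonneg_left (by linarith) hs
  · exact mul_le_mul_of_nonneg_left (by linarith) hs

/-- the start of the window of `v` -/
theorem start {A B Λ v N k : ℤ} (hΛ : 1 ≤ Λ) (hA : |A| ≤ Λ) (hB : |B| ≤ Λ) (hN : 0 < N)
    (hk : 2 ≤ k) (hkΛ : 12 * Λ ≤ k ^ 3)
    (hv : N < v) (hvN : v ≤ 3 * N) {X : ℝ} (hX1 : (k : ℝ) ^ 12 * (N : ℝ) ^ 4 ≤ X)
    (hX2 : X ≤ 2 * (k : ℝ) ^ 12 * (N : ℝ) ^ 4) :
    ∃ u₀ : ℕ, k ^ 3 * N < u₀ ∧ u₀ ≤ 2 * k ^ 4 * N ∧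
      ((v * G A B (u₀ - 1) v : ℤ) : ℝ) < X ∧ X ≤ ((v * G A B u₀ v : ℤ) : ℝ) := by
  classical
  have hk3 : 8 ≤ k ^ 3 := by
    calc (8 : ℤ) = 2 ^ 3 := by norm_num
      _ ≤ k ^ 3 := pow_le_pow_left₀ (by norm_num) hk 3
  have hkk : k ^ 3 ≤ k ^ 4 := pow_le_pow_right₀ (by linarith) (by norm_num)
  have hv0 : 0 < v := by linarith
  have hreg : ∀ u : ℤ, k ^ 3 * N ≤ u → 4 * Λ * v ≤ u := by
    intro u hu
    have h1 : 4 * Λ * v ≤ 4 * Λ * (3 * N) := mul_le_mul_of_nonneg_left hvN (by linarith)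
    have h2 : 12 * Λ * N ≤ k ^ 3 * N := mul_le_mul_of_nonneg_right hkΛ hN.le
    linarith
  have hN4 : (0 : ℤ) < N ^ 4 := by positivity
  -- the upper end
  have hup : X ≤ ((v * G A B (2 * k ^ 4 * N) v : ℤ) : ℝ) := by
    have hr : k ^ 3 * N ≤ 2 * k ^ 4 * N := by nlinarith
    have h1 := (G_bd hΛ hA hB hv0 (hreg _ hr)).1
    have h2 : 0 ≤ (2 * k ^ 4 * N) ^ 3 := by positivity
    have h3 : N * (2 * k ^ 4 * N) ^ 3 ≤ v * (2 * G A B (2 * k ^ 4 * N) v) :=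
      mul_le_mul hv.le h1 h2 hv0.le
    have h4 : N * (2 * k ^ 4 * N) ^ 3 = 8 * (k ^ 12 * N ^ 4) := by ring
    have h5 : 0 < k ^ 12 * N ^ 4 := by positivity
    have h6 : 2 * (k ^ 12 * N ^ 4) ≤ v * G A B (2 * k ^ 4 * N) v := by linarith
    have h7 : ((2 * (k ^ 12 * N ^ 4) : ℤ) : ℝ) ≤ ((v * G A B (2 * k ^ 4 * N) v : ℤ) : ℝ) := by
      exact_mod_cast h6
    rw [show ((2 * (k ^ 12 * N ^ 4) : ℤ) : ℝ) = 2 * (k : ℝ) ^ 12 * (N : ℝ) ^ 4 by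
      push_cast; ring] at h7
    linarith
  have hk4N : 0 < k ^ 4 * N := by positivity
  have hk3N : 0 < k ^ 3 * N := by positivity
  have hr : k ^ 3 * N ≤ 2 * k ^ 4 * N := by nlinarith
  have hex : ∃ m : ℕ, X ≤ ((v * G A B (k ^ 3 * N + m) v : ℤ) : ℝ) := by
    refine ⟨(2 * k ^ 4 * N - k ^ 3 * N).toNat, ?_⟩
    have : (k ^ 3 * N + ((2 * k ^ 4 * N - k ^ 3 * N).toNat : ℤ)) = 2 * k ^ 4 * N := by omega
    rw [this]
    exact hup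
  have hkl : Nat.find hex ≤ (2 * k ^ 4 * N - k ^ 3 * N).toNat := Nat.find_min' hex (by
    have : (k ^ 3 * N + ((2 * k ^ 4 * N - k ^ 3 * N).toNat : ℤ)) = 2 * k ^ 4 * N := by omega
    rw [this]
    exact hup)
  have hk0 : Nat.find hex ≠ 0 := by
    intro h0
    have h1 := Nat.find_spec hex
    rw [h0] at h1
    rw [show (k ^ 3 * N + ((0 : ℕ) : ℤ)) = k ^ 3 * N by simp] at h1
    have h2 := (G_bd hΛ hA hB hv0 (hreg _ le_rfl)).2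
    have h3 : v * G A B (k ^ 3 * N) v ≤ 3 * N * (2 * (k ^ 3 * N) ^ 3) :=
      (mul_le_mul_of_nonneg_left h2 hv0.le).trans
        (mul_le_mul_of_nonneg_right hvN (by positivity))
    have h4 : 3 * N * (2 * (k ^ 3 * N) ^ 3) = 6 * (k ^ 9 * N ^ 4) := by ring
    have h5 : 8 * (k ^ 9 * N ^ 4) ≤ k ^ 12 * N ^ 4 := by
      have e1 : k ^ 12 * N ^ 4 = k ^ 3 * (k ^ 9 * N ^ 4) := by ring
      rw [e1]
      exact mul_le_mul_of_nonneg_right hk3 (by positivity)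
    have h6 : v * G A B (k ^ 3 * N) v < k ^ 12 * N ^ 4 := by
      have : 0 < k ^ 9 * N ^ 4 := by positivity
      linarith
    have h7 : ((v * G A B (k ^ 3 * N) v : ℤ) : ℝ) < ((k ^ 12 * N ^ 4 : ℤ) : ℝ) := by
      exact_mod_cast h6
    push_cast at h7 h1
    linarith
  refine ⟨(k ^ 3 * N + (Nat.find hex : ℕ)).toNat, by omega, by omega, ?_, ?_⟩
  · have h5 := Nat.find_min hex (m := Nat.find hex - 1) (by omega)
    push Not at h5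
    have h6 : (((k ^ 3 * N + (Nat.find hex : ℕ)).toNat : ℤ) - 1) =
        k ^ 3 * N + ((Nat.find hex - 1 : ℕ) : ℤ) := by omega
    rw [h6]
    exact h5
  · have h6 : (((k ^ 3 * N + (Nat.find hex : ℕ)).toNat : ℤ)) =
        k ^ 3 * N + (Nat.find hex : ℕ) := by omega
    rw [h6]
    exact Nat.find_spec hex

/-- the window -/
theorem window {A B Λ v N k : ℤ} (hΛ : 1 ≤ Λ) (hA : |A| ≤ Λ) (hB : |B| ≤ Λ) (hN : 0 < N)
    (hk : 2 ≤ k) (hkΛ : 12 * Λ ≤ k ^ 3)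
    (hv : N < v) (hvN : v ≤ 3 * N) {X H : ℝ} (hX1 : (k : ℝ) ^ 12 * (N : ℝ) ^ 4 ≤ X)
    (hX2 : X ≤ 2 * (k : ℝ) ^ 12 * (N : ℝ) ^ 4) {T : ℕ}
    (hT : (T : ℝ) * (108 * (k : ℝ) ^ 8 * (N : ℝ) ^ 3) ≤ H) (hTN : (T : ℤ) ≤ k ^ 4 * N) :
    ∃ u₀ : ℕ, k ^ 3 * N < u₀ ∧ ∀ u : ℕ, u₀ ≤ u → u < u₀ + T → (u : ℤ) ≤ 3 * k ^ 4 * N ∧
      X ≤ ((v * G A B u v : ℤ) : ℝ) ∧ ((v * G A B u v : ℤ) : ℝ) ≤ X + H := by
  obtain ⟨u₀, h1, h2, h3, h4⟩ := start hΛ hA hB hN hk hkΛ hv hvN hX1 hX2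
  have hv0 : 0 < v := by linarith
  have hreg : ∀ u : ℤ, k ^ 3 * N ≤ u → 4 * Λ * v ≤ u := by
    intro u hu
    have h1 : 4 * Λ * v ≤ 4 * Λ * (3 * N) := mul_le_mul_of_nonneg_left hvN (by linarith)
    have h2 : 12 * Λ * N ≤ k ^ 3 * N := mul_le_mul_of_nonneg_right hkΛ hN.le
    linarith
  refine ⟨u₀, h1, fun u ha1 ha2 => ⟨by linarith [(by exact_mod_cast ha2 : (u : ℤ) < u₀ + T)], ?_, ?_⟩⟩
  · refine h4.trans ?_
    have h5 := (G_step (A := A) (B := B) (s := (u : ℤ) - u₀) hΛ hA hv0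
      (hreg u₀ h1.le) (by omega)).1
    rw [show (u₀ : ℤ) + (u - u₀) = u by ring] at h5
    have h6 : 0 ≤ ((u : ℤ) - u₀) * (u₀ : ℤ) ^ 2 := by
      have : (0 : ℤ) ≤ u - u₀ := by omega
      positivity
    have h7 : v * G A B u₀ v ≤ v * G A B u v := mul_le_mul_of_nonneg_left (by linarith) hv0.le
    exact_mod_cast h7
  · have hz2 : (u : ℤ) < u₀ + T := by exact_mod_cast ha2
    have hz1 : (u₀ : ℤ) ≤ u := by exact_mod_cast ha1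
    have h5 := (G_step (A := A) (B := B) (s := (u : ℤ) - (u₀ - 1)) hΛ hA hv0
      (hreg ((u₀ : ℤ) - 1) (by omega)) (by omega)).2
    rw [show ((u₀ : ℤ) - 1) + (u - (u₀ - 1)) = u by ring] at h5
    have hs : (u : ℤ) - (u₀ - 1) ≤ T := by omega
    have hu3 : (u : ℤ) ≤ 3 * k ^ 4 * N := by linarith
    have h6 : ((u : ℤ) - (u₀ - 1)) * (4 * (u : ℤ) ^ 2) ≤ T * (4 * (3 * k ^ 4 * N) ^ 2) := by
      apply mul_le_mul hs _ (by positivity) (by positivity)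
      have := pow_le_pow_left₀ (by positivity : (0 : ℤ) ≤ u) hu3 2
      linarith
    have h7 : v * (G A B u v - G A B (u₀ - 1) v) ≤ 3 * N * (T * (4 * (3 * k ^ 4 * N) ^ 2)) :=
      (mul_le_mul_of_nonneg_left (h5.trans h6) hv0.le).trans
        (mul_le_mul_of_nonneg_right hvN (by positivity))
    have h8 : ((v * (G A B u v - G A B (u₀ - 1) v) : ℤ) : ℝ) ≤
        ((3 * N * (T * (4 * (3 * k ^ 4 * N) ^ 2)) : ℤ) : ℝ) := by exact_mod_cast h7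
    have h9 : ((3 * N * (T * (4 * (3 * k ^ 4 * N) ^ 2)) : ℤ) : ℝ) =
        (T : ℝ) * (108 * (k : ℝ) ^ 8 * (N : ℝ) ^ 3) := by push_cast; ring
    have h10 : ((v * (G A B u v - G A B (u₀ - 1) v) : ℤ) : ℝ) =
        ((v * G A B u v : ℤ) : ℝ) - ((v * G A B (u₀ - 1) v : ℤ) : ℝ) := by push_cast; ring
    rw [h9, h10] at h8
    linarith

end Pool.Agent.TH646.AT
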